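import Pool.Agent.Z45.PN.Mart
import Pool.Agent.Z45.OG.LazyPoly
import Pool.Agent.H620R2.Gauge.A2

/-!
# The martingale is computable in polynomial time with the oracle
-/

namespace Pool.Agent.Z45.PN

open Pool.Agent.NPC Pool.Agent.H620R2.Gauge Pool.Agent.Z45.OG

theorem poly_repl {α : Type} [TEnc α] (b : Bool) {n : α → ℕ} (hn : UPoly n) :
    Poly (fun a => List.replicate (n a) b) := by
  have h := NPC.Poly.map (F := fun (_ : α) (_ : Unit) => b) hn (NPC.Poly.const b)
  exact h.congr fun a => by simp

theorem upoly_min {α : Type} [TEnc α] {n B : α → ℕ} (hn : Poly n) (hB : UPoly B) :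
    UPoly (fun a => min (n a) (B a)) :=
  UPoly.of_le (Poly.min hn hB.toPoly) hB fun _ => min_le_right _ _

theorem poly_optD {α : Type} [TEnc α] {o : α → Option Bool} (ho : Poly o) :
    Poly (fun a => (o a).getD false) :=
  (Poly.optCases (g := fun _ => false) (h := fun _ b => b) ho (NPC.Poly.const false)
    (Poly.snd Poly.id)).congr fun a => by cases o a <;> rfl

theorem valB_pow (n : ℕ) : valB (List.replicate n false ++ [true]) = 2 ^ n := by
  rw [← bits_two_pow, valB_bits]

/-- the place, cut off at a bound -/
def plB (B e n : ℕ) : List Bool :=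
  List.replicate (min (valB (List.replicate (min n B) false ++ [true])) B) false ++
    List.replicate (min e B) true

theorem plB_eq {B e n : ℕ} (hn : 2 ^ n ≤ B) (he : e ≤ B) : plB B e n = pl e n := by
  have h1 : n < 2 ^ n := Nat.lt_two_pow_self
  unfold plB pl
  rw [min_eq_left (show n ≤ B by omega), valB_pow, min_eq_left hn, min_eq_left he]

theorem poly_plB {α : Type} [TEnc α] {B e n : α → ℕ} (hB : UPoly B) (he : Poly e) (hn : Poly n) :
    Poly (fun a => plB (B a) (e a) (n a)) := by
  have h1 : Poly (fun a => valB (List.replicate (min (n a) (B a)) false ++ [true])) :=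
    Poly.valBits (Poly.append (poly_repl false (upoly_min hn hB)) (NPC.Poly.const [true]))
  exact Poly.append (poly_repl false (upoly_min h1 hB)) (poly_repl true (upoly_min he hB))

/-- the stages below `m`, with their numbers -/
def stg (V : List Bool → List Bool) (m : ℕ) : List (ℕ × ℕ) :=
  ((List.range m).filter (fun n => decide (V (List.replicate n false) = [true]))).zipIdx

variable {S : Set ℕ} {V : List Bool → List Bool}

theorem length_stg (hSV : ∀ n, n ∈ S ↔ V (List.replicate n false) = [true]) (m : ℕ) :
    (stg V m).length = rk S m := by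
  unfold stg
  rw [List.length_zipIdx]
  induction m with
  | zero => simp [rk]
  | succ m ih =>
    rw [List.range_succ, List.filter_append, List.length_append, ih, rk_succ]
    congr 1
    by_cases h : m ∈ S
    · rw [if_pos h, List.filter_cons_of_pos (by simpa using (hSV m).1 h)]
      rfl
    · rw [if_neg h, List.filter_cons_of_neg (by simpa using fun h2 => h ((hSV m).2 h2))]
      rfl

theorem mem_stg (hSV : ∀ n, n ∈ S ↔ V (List.replicate n false) = [true]) {m n j : ℕ} :
    (n, j) ∈ stg V m ↔ n < m ∧ n ∈ S ∧ j = rk S n := by
  induction m with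
  | zero => simp [stg]
  | succ m ih =>
    have h0 : stg V (m + 1) = stg V m ++ (([m].filter (fun n =>
        decide (V (List.replicate n false) = [true]))).zipIdx (rk S m)) := by
      have h1 := length_stg hSV m
      unfold stg at h1 ⊢
      rw [List.length_zipIdx] at h1
      rw [List.range_succ, List.filter_append, List.zipIdx_append, Nat.zero_add, h1]
    rw [h0, List.mem_append, ih]
    by_cases h : m ∈ S
    · rw [List.filter_cons_of_pos (by simpa using (hSV m).1 h)]
      simp only [List.filter_nil, List.zipIdx_cons, List.zipIdx_nil, List.mem_singleton,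
        Prod.mk.injEq]
      constructor
      · rintro (⟨h1, h2, h3⟩ | ⟨h1, h2⟩)
        · exact ⟨by omega, h2, h3⟩
        · subst h1
          exact ⟨by omega, h, h2⟩
      · rintro ⟨h1, h2, h3⟩
        rcases Nat.lt_succ_iff_lt_or_eq.1 h1 with h4 | h4
        · exact Or.inl ⟨h4, h2, h3⟩
        · subst h4
          exact Or.inr ⟨rfl, h3⟩
    · rw [List.filter_cons_of_neg (by simpa using fun h2 => h ((hSV m).2 h2))]
      simp only [List.filter_nil, List.zipIdx_nil, List.not_mem_nil, or_false]
      constructor
      · rintro ⟨h1, h2, h3⟩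
        exact ⟨by omega, h2, h3⟩
      · rintro ⟨h1, h2, h3⟩
        refine ⟨?_, h2, h3⟩
        rcases Nat.lt_succ_iff_lt_or_eq.1 h1 with h4 | h4
        · exact h4
        · subst h4
          exact absurd h2 h

/-- the places of the stages below `m` -/
def plcs (V : List Bool → List Bool) (B m : ℕ) : List (List Bool) :=
  (stg V m).flatMap (fun q => (List.range q.2).map (fun e => plB B e q.1))

/-- the component `e` has not lost -/
def okB (B : ℕ) (T : Tab) (sg : List (ℕ × ℕ)) (w : List Bool) (e : ℕ) : Bool :=
  sg.all (fun q => !(decide (e < q.2)) || decide (w.getD (valB (List.replicate (min q.1 B) false ++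
    [true]) - 1) false = (look T (plB B e q.1)).getD false))

/-- the numerator, computed with a table of answers -/
def numB (B : ℕ) (T : Tab) (sg : List (ℕ × ℕ)) (w : List Bool) : ℕ :=
  1 + ((List.range sg.length).map (fun e => bif okB B T sg w e then
    valB (List.replicate (min (2 * (sg.length - 1 - e)) (2 * sg.length)) false ++ [true])
    else 0)).sum

theorem poly_stg {α : Type} [TEnc α] (hV : PolyTime V) {l : α → List Bool} (hl : Poly l) :
    Poly (fun a => stg V (l a).length) := by
  have hu : UPoly (fun p : α × ℕ => min p.2 (l p.1).length) :=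
    upoly_min (Poly.snd Poly.id) (UPoly.length (hl.comp (Poly.fst Poly.id)))
  have h1 : Poly (fun a => (List.range (l a).length).filter (fun n =>
      decide (V (List.replicate (min n (l a).length) false) = [true]))) :=
    Poly.filter (p := fun a n => decide (V (List.replicate (min n (l a).length) false) = [true]))
      (Poly.range_length hl) (Poly.decide_eq ((H622R2.poly_of_polyTime hV).comp
        (poly_repl false hu)) (NPC.Poly.const _))
  refine (Poly.zipIdx h1).congr fun a => ?_
  unfold stg
  congr 1
  apply List.filter_congr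
  intro n hn
  rw [List.mem_range] at hn
  rw [min_eq_left hn.le]

theorem poly_plcs {α : Type} [TEnc α] (hV : PolyTime V) {l : α → List Bool} {B : α → ℕ}
    (hl : Poly l) (hB : UPoly B) : Poly (fun a => plcs V (B a) (l a).length) := by
  have h1 : UPoly (fun p : α × ℕ × ℕ => min p.2.2 (l p.1).length) :=
    upoly_min (Poly.snd (Poly.snd Poly.id)) (UPoly.length (hl.comp (Poly.fst Poly.id)))
  have h2 : Poly (fun p : α × ℕ × ℕ => (List.range (min p.2.2 (l p.1).length)).map
      (fun e => plB (B p.1) e p.2.1)) :=
    NPC.Poly.map (F := fun (p : α × ℕ × ℕ) e => plB (B p.1) e p.2.1) h1.range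
      (poly_plB (hB.comp (Poly.fst (Poly.fst Poly.id))) (Poly.snd Poly.id)
        (Poly.fst (Poly.snd (Poly.fst Poly.id))))
  refine (Poly.flatMap (F := fun a (q : ℕ × ℕ) => (List.range (min q.2 (l a).length)).map
      (fun e => plB (B a) e q.1)) (poly_stg hV hl) h2).congr fun a => ?_
  unfold plcs
  apply List.flatMap_congr
  rintro ⟨n, j⟩ hq
  have h3 : j ≤ (l a).length := by
    have h4 := (mem_stg (S := {n | V (List.replicate n false) = [true]}) (fun n => Iff.rfl)).1 hq
    have h5 := rk_le {n | V (List.replicate n false) = [true]} n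
    omega
  simp only
  rw [min_eq_left h3]

theorem poly_numB {α : Type} [TEnc α] {B : α → ℕ} {T : α → Tab} {sg : α → List (ℕ × ℕ)}
    {w : α → List Bool} (hB : UPoly B) (hT : Poly T) (hsg : Poly sg) (hw : Poly w) :
    Poly (fun a => numB (B a) (T a) (sg a) (w a)) := by
  have hok : Poly (fun p : α × ℕ => okB (B p.1) (T p.1) (sg p.1) (w p.1) p.2) := by
    have g0 : Poly (fun z : (α × ℕ) × ℕ × ℕ => z.1.1) := Poly.fst (Poly.fst Poly.id)
    have g1 : Poly (fun z : (α × ℕ) × ℕ × ℕ => z.1.2) := Poly.snd (Poly.fst Poly.id)
    have g2 : Poly (fun z : (α × ℕ) × ℕ × ℕ => z.2.1) := Poly.fst (Poly.snd Poly.id)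
    have g3 : Poly (fun z : (α × ℕ) × ℕ × ℕ => z.2.2) := Poly.snd (Poly.snd Poly.id)
    have g4 : Poly (fun z : (α × ℕ) × ℕ × ℕ => valB (List.replicate (min z.2.1 (B z.1.1)) false ++
        [true]) - 1) :=
      Poly.sub (Poly.valBits (Poly.append (poly_repl false (upoly_min g2 (hB.comp g0)))
        (NPC.Poly.const [true]))) (NPC.Poly.const 1)
    exact Poly.all (p := fun (p : α × ℕ) (q : ℕ × ℕ) => !(decide (p.2 < q.2)) ||
      decide ((w p.1).getD (valB (List.replicate (min q.1 (B p.1)) false ++ [true]) - 1) false =
        (look (T p.1) (plB (B p.1) p.2 q.1)).getD false)) (hsg.comp (Poly.fst Poly.id))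
      (Poly.or (Poly.not (Poly.decide_lt g1 g3)) (Poly.decide_eq
        (Poly.getD (hw.comp g0) g4 (NPC.Poly.const false))
        (poly_optD (poly_look (hT.comp g0) (poly_plB (hB.comp g0) g1 g2)))))
  have hlen : UPoly (fun a => (sg a).length) := UPoly.length hsg
  have hexp : UPoly (fun p : α × ℕ => min (2 * ((sg p.1).length - 1 - p.2))
      (2 * (sg p.1).length)) :=
    upoly_min (Poly.mul (NPC.Poly.const 2) (Poly.sub (Poly.sub (Poly.length
      (hsg.comp (Poly.fst Poly.id))) (NPC.Poly.const 1)) (Poly.snd Poly.id)))
      ((UPoly.const 2).mul (hlen.comp (Poly.fst Poly.id)))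
  exact Poly.add (NPC.Poly.const 1) (Poly.sum (NPC.Poly.map (F := fun a e =>
    bif okB (B a) (T a) (sg a) (w a) e then
    valB (List.replicate (min (2 * ((sg a).length - 1 - e)) (2 * (sg a).length)) false ++ [true])
    else 0) (Poly.range_length hsg) (Poly.cond hok (Poly.valBits (Poly.append
      (poly_repl false hexp) (NPC.Poly.const [true]))) (NPC.Poly.const 0))))

theorem look_zip (A : Oracle) : ∀ (Q : List (List Bool)) (q : List Bool), q ∈ Q →
    look (Q.zip (Q.map A)) q = some (A q) := by
  intro Q
  induction Q with
  | nil => intro q h; simp at h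
  | cons q0 Q ih =>
    intro q hq
    rw [List.map_cons, List.zip_cons_cons]
    unfold look at ih ⊢
    by_cases h : q0 = q
    · rw [List.filter_cons_of_pos (by simpa using h)]
      simp [h]
    · rw [List.filter_cons_of_neg (by simpa using h)]
      apply ih
      rcases List.mem_cons.1 hq with h1 | h1
      · exact absurd h1.symm h
      · exact h1

theorem numB_eq (hSV : ∀ n, n ∈ S ↔ V (List.replicate n false) = [true]) (A : Oracle)
    (w : List Bool) : numB w.length ((plcs V w.length w.length.bits.length).zip
      ((plcs V w.length w.length.bits.length).map A)) (stg V w.length.bits.length) w =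
      num S A w := by
  classical
  have hJ : (stg V w.length.bits.length).length = J S w := by
    rw [length_stg hSV, Nat.size_eq_bits_len]
    rfl
  have hlt : ∀ n, n < w.length.bits.length ↔ 2 ^ n ≤ w.length := by
    intro n
    rw [Nat.size_eq_bits_len, Nat.lt_size]
  have hok : ∀ e, okB w.length ((plcs V w.length w.length.bits.length).zip
      ((plcs V w.length w.length.bits.length).map A)) (stg V w.length.bits.length) w e = true ↔
      okP S A e w := by
    intro e
    unfold okB okP
    rw [List.all_eq_true]
    have key : ∀ n ∈ S, 2 ^ n ≤ w.length → e < rk S n →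
        w.getD (valB (List.replicate (min n w.length) false ++ [true]) - 1) false =
          w.getD (2 ^ n - 1) false ∧
        (look ((plcs V w.length w.length.bits.length).zip
          ((plcs V w.length w.length.bits.length).map A)) (plB w.length e n)).getD false =
          A (pl e n) := by
      intro n hn h1 he
      have h2 : n < 2 ^ n := Nat.lt_two_pow_self
      have h3 := rk_le S n
      refine ⟨?_, ?_⟩
      · rw [min_eq_left (by omega), valB_pow]
      · rw [look_zip A _ _ ?_, plB_eq h1 (by omega)]
        · rfl
        · unfold plcs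
          rw [List.mem_flatMap]
          exact ⟨(n, rk S n), (mem_stg hSV).2 ⟨(hlt n).2 h1, hn, rfl⟩,
            List.mem_map.2 ⟨e, List.mem_range.2 he, rfl⟩⟩
    constructor
    · intro h n hn h1 he
      have h2 := h (n, rk S n) ((mem_stg hSV).2 ⟨(hlt n).2 h1, hn, rfl⟩)
      simp only [he, decide_true, Bool.not_true, Bool.false_or, decide_eq_true_eq] at h2
      obtain ⟨k1, k2⟩ := key n hn h1 he
      rw [k1, k2] at h2
      exact h2
    · rintro h ⟨n, j⟩ hq
      obtain ⟨h1, h2, h3⟩ := (mem_stg hSV).1 hq
      subst h3
      by_cases he : e < rk S n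
      · obtain ⟨k1, k2⟩ := key n h2 ((hlt n).1 h1) he
        simp only [he, decide_true, Bool.not_true, Bool.false_or, decide_eq_true_eq]
        rw [k1, k2]
        exact h n h2 ((hlt n).1 h1) he
      · simp [he]
  unfold numB num
  rw [hJ]
  congr 1
  rw [Finset.sum_range, ← List.sum_ofFn, List.ofFn_eq_map, ← List.map_coe_finRange_eq_range,
    List.map_map]
  congr 1
  apply List.map_congr_left
  intro e _
  have he := e.isLt
  simp only [Function.comp_apply]
  rw [min_eq_left (by omega), valB_pow, pow_mul]
  by_cases h : okP S A e w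
  · rw [if_pos h, (hok e).2 h]
    rfl
  · rw [if_neg h]
    have h2 : okB w.length ((plcs V w.length w.length.bits.length).zip
      ((plcs V w.length w.length.bits.length).map A)) (stg V w.length.bits.length) w e = false := by
      rw [← Bool.not_eq_true]
      exact fun h3 => h ((hok e).1 h3)
    rw [h2]
    rfl

/-- the martingales are computed relative to the oracle -/
theorem mart_comp (hV : PolyTime V) (hSV : ∀ n, n ∈ S ↔ V (List.replicate n false) = [true])
    (A : Oracle) : ∃ F, IsFP A F ∧ ∀ k r w, dyad (F (inp k r w)) = mart S A k w := by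
  have hk : UPoly (fun x : List Bool => (unpair x).1.length) := UPoly.length (Poly.fst poly_unpair)
  have hw : Poly (fun x : List Bool => (unpair (unpair x).2).2) :=
    Poly.snd (poly_unpair.comp (Poly.snd poly_unpair))
  have hN : UPoly (fun x : List Bool => (unpair (unpair x).2).2.length) := UPoly.length hw
  have hb : Poly (fun x : List Bool => (unpair (unpair x).2).2.length.bits) :=
    Poly.natBits hN.toPoly
  have hQ : Poly (fun x : List Bool => plcs V (unpair (unpair x).2).2.length
      (unpair (unpair x).2).2.length.bits.length) := poly_plcs hV hb hN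
  have hsg : Poly (fun x : List Bool => stg V (unpair (unpair x).2).2.length.bits.length) :=
    poly_stg hV hb
  have h0 : Poly (fun q : List Bool × List Bool => q.1) := Poly.fst Poly.id
  have hH : Poly (fun q : List Bool × List Bool => pairBits
      (numB (unpair (unpair q.1).2).2.length ((plcs V (unpair (unpair q.1).2).2.length
        (unpair (unpair q.1).2).2.length.bits.length).zip q.2)
        (stg V (unpair (unpair q.1).2).2.length.bits.length) (unpair (unpair q.1).2).2).bits
      (List.replicate ((unpair q.1).1.length +
        (stg V (unpair (unpair q.1).2).2.length.bits.length).length) true)) := by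
    refine H622R2.poly_pairBits (Poly.natBits (poly_numB (hN.comp h0)
      (Poly.zip (hQ.comp h0) (Poly.snd Poly.id)) (hsg.comp h0) (hw.comp h0))) ?_
    exact poly_repl true ((hk.comp h0).add (UPoly.length (hsg.comp h0)))
  refine ⟨_, IsFP.tt (A := A) hQ hH, fun k r w => ?_⟩
  simp only [inp, unpair_pairBits, List.length_replicate, dyad, valB_bits]
  rw [numB_eq hSV, length_stg hSV, Nat.size_eq_bits_len]
  rfl

end Pool.Agent.Z45.PN
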