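import Pool.Agent.H620R2.Gauge2.Defs
import Pool.Agent.NPC.Dec

/-!
# Polynomial-time measure, relative to an oracle
-/

namespace Pool.Agent.Z45.PN

open Pool.Agent.NPC Pool.Agent.H620R2.Gauge

open Classical in
/-- The first `n` bits of the characteristic sequence of the language `L`. -/
noncomputable def pref (L : Set (List Bool)) (n : ℕ) : List Bool :=
  List.ofFn (fun i : Fin n => decide (str i ∈ L))

/-- The dyadic rational coded by a string: the pair `⟨m, e⟩` codes the number with the binary
digits `m`, the least significant digit first, divided by `2 ^ |e|`. -/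
noncomputable def dyad (y : List Bool) : ℝ := (valB (unpair y).1 : ℝ) / 2 ^ (unpair y).2.length

/-- The input `⟨1 ^ k, 1 ^ r, w⟩`. -/
def inp (k r : ℕ) (w : List Bool) : List Bool :=
  pairBits (List.replicate k true) (pairBits (List.replicate r true) w)

/-- The functions `d k` are density functions with `d k [] ≤ 2 ^ (-k)` which cover the class `X` of
languages. -/
structure IsCover (X : Set (Set (List Bool))) (d : ℕ → List Bool → ℝ) : Prop where
  nonneg : ∀ k w, 0 ≤ d k w
  dens : ∀ k w, (d k (w ++ [false]) + d k (w ++ [true])) / 2 ≤ d k w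
  init : ∀ k, d k [] ≤ (1 / 2) ^ k
  cov : ∀ k, ∀ L ∈ X, ∃ n, 1 ≤ d k (pref L n)

/-- The class `X` of languages has p-measure zero. -/
def PNull (X : Set (Set (List Bool))) : Prop :=
  ∃ (d : ℕ → List Bool → ℝ) (F : List Bool → List Bool), IsCover X d ∧ PolyTime F ∧
    ∀ k r w, |dyad (F (inp k r w)) - d k w| ≤ (1 / 2) ^ r

/-- The class `X` of languages has p-measure zero relative to the oracle `A`. -/
def PNullRel (A : Oracle) (X : Set (Set (List Bool))) : Prop :=
  ∃ (d : ℕ → List Bool → ℝ) (F : List Bool → List Bool), IsCover X d ∧ IsFP A F ∧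
    ∀ k r w, |dyad (F (inp k r w)) - d k w| ≤ (1 / 2) ^ r

end Pool.Agent.Z45.PN
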