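import Pool.Agent.Z45.PN.Defs

/-!
# A legal betting strategy from approximations of a density function
-/

namespace Pool.Agent.Z45.PN

open Pool.Agent.NPC Pool.Agent.H620R2.Gauge

/-- The numerator of the capital after one more bit. The capital was `a / 2 ^ t`, the
approximations of the values of the density function are `u / 2 ^ t` for the bit that occurred and
`v / 2 ^ t` for the other one. No bet is made if the capital is at least one or if the bet could
not be paid. -/
def upd (t a u v : ℕ) : ℕ :=
  if 2 ^ t ≤ a ∨ 2 * a + u < v ∨ 2 * a + v < u then 2 * a else 2 * a + u - v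

/-- one step -/
def stp (k : ℕ) (val : List Bool → ℕ) (s : List Bool × ℕ) (b : Bool) : List Bool × ℕ :=
  (s.1 ++ [b], upd (k + s.1.length + 2) s.2 (val (s.1 ++ [b])) (val (s.1 ++ [!b])))

/-- the numerator of the capital -/
def leg (k : ℕ) (val : List Bool → ℕ) (w : List Bool) : ℕ := (w.foldl (stp k val) ([], 8)).2

theorem fold_fst (k : ℕ) (val : List Bool → ℕ) (w : List Bool) (s : List Bool × ℕ) :
    (w.foldl (stp k val) s).1 = s.1 ++ w := by
  induction w generalizing s with
  | nil => simp
  | cons b w ih => rw [List.foldl_cons, ih, stp]; simp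

theorem leg_append (k : ℕ) (val : List Bool → ℕ) (w : List Bool) (b : Bool) :
    leg k val (w ++ [b]) =
      upd (k + w.length + 2) (leg k val w) (val (w ++ [b])) (val (w ++ [!b])) := by
  unfold leg
  rw [List.foldl_append, List.foldl_cons, List.foldl_nil]
  have h := fold_fst k val w ([], 8)
  rw [List.nil_append] at h
  conv_lhs => rw [stp]
  simp only [h]

theorem leg_nil (k : ℕ) (val : List Bool → ℕ) : leg k val [] = 8 := rfl

theorem leg_sum (k : ℕ) (val : List Bool → ℕ) (w : List Bool) :
    leg k val (w ++ [false]) + leg k val (w ++ [true]) = 4 * leg k val w := by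
  rw [leg_append, leg_append]
  simp only [Bool.not_false, Bool.not_true]
  unfold upd
  split_ifs <;> omega

theorem leg_bound (k : ℕ) (val : List Bool → ℕ) (w : List Bool) :
    leg k val w ≤ 2 ^ (k + w.length + 3) := by
  induction w using List.reverseRecOn with
  | nil =>
    rw [leg_nil]
    calc 8 = 2 ^ 3 := by norm_num
      _ ≤ _ := Nat.pow_le_pow_right (by norm_num) (by omega)
  | append_singleton w b ih =>
    rw [leg_append, List.length_append, List.length_singleton]
    have e1 : 2 ^ (k + (w.length + 1) + 3) = 2 * 2 ^ (k + w.length + 3) := by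
      rw [show k + (w.length + 1) + 3 = (k + w.length + 3) + 1 by ring, pow_succ]; ring
    have e2 : 2 ^ (k + w.length + 3) = 2 * 2 ^ (k + w.length + 2) := by
      rw [show k + w.length + 3 = (k + w.length + 2) + 1 by ring, pow_succ]; ring
    unfold upd
    split_ifs with h
    · omega
    · omega

theorem leg_stay (k : ℕ) (val : List Bool → ℕ) (w : List Bool) (b : Bool)
    (h : 2 ^ (k + w.length + 2) ≤ leg k val w) :
    2 ^ (k + (w ++ [b]).length + 2) ≤ leg k val (w ++ [b]) := by
  rw [leg_append, List.length_append, List.length_singleton]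
  unfold upd
  rw [if_pos (Or.inl h)]
  rw [show k + (w.length + 1) + 2 = (k + w.length + 2) + 1 by ring, pow_succ]
  omega

/-- the capital -/
noncomputable def cap (k : ℕ) (val : List Bool → ℕ) (w : List Bool) : ℝ :=
  (leg k val w : ℝ) / 2 ^ (k + w.length + 2)

theorem cap_nonneg (k : ℕ) (val : List Bool → ℕ) (w : List Bool) : 0 ≤ cap k val w := by
  unfold cap; positivity

theorem one_le_cap (k : ℕ) (val : List Bool → ℕ) (w : List Bool) :
    1 ≤ cap k val w ↔ 2 ^ (k + w.length + 2) ≤ leg k val w := by
  unfold cap
  rw [le_div_iff₀ (by positivity), one_mul]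
  constructor
  · intro h; exact_mod_cast h
  · intro h; exact_mod_cast h

theorem cap_stay (k : ℕ) (val : List Bool → ℕ) (w : List Bool) (b : Bool)
    (h : 1 ≤ cap k val w) : 1 ≤ cap k val (w ++ [b]) := by
  rw [one_le_cap] at h ⊢
  exact leg_stay k val w b h

theorem cap_sum (k : ℕ) (val : List Bool → ℕ) (w : List Bool) :
    cap k val (w ++ [false]) + cap k val (w ++ [true]) = 2 * cap k val w := by
  unfold cap
  have h : ((leg k val (w ++ [false]) : ℝ)) + leg k val (w ++ [true]) = 4 * leg k val w := by
    exact_mod_cast leg_sum k val w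
  simp only [List.length_append, List.length_singleton]
  rw [← add_div, h, show k + (w.length + 1) + 2 = (k + w.length + 2) + 1 by ring, pow_succ]
  field_simp
  ring

theorem cap_nil (k : ℕ) (val : List Bool → ℕ) : cap (k + 2) val [] = (1 / 2) * (1 / 2) ^ k := by
  unfold cap
  rw [leg_nil, List.length_nil, one_div_pow]
  rw [show k + 2 + 0 + 2 = k + 4 by ring, pow_add]
  field_simp
  norm_num

theorem leg_congr {k : ℕ} {val val' : List Bool → ℕ} {w : List Bool}
    (h : ∀ v : List Bool, v.length ≤ w.length → val v = val' v) : leg k val w = leg k val' w := by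
  induction w using List.reverseRecOn with
  | nil => rfl
  | append_singleton w b ih =>
    rw [leg_append, leg_append, ih fun v hv => h v (by rw [List.length_append]; omega),
      h _ (by simp), h _ (by simp)]

/-- If the approximations are good, then the capital is at least the value of the density
function, as long as it is less than one. -/
theorem cap_good {k : ℕ} {val : List Bool → ℕ} {d : List Bool → ℝ} (h0 : ∀ w, 0 ≤ d w)
    (h1 : ∀ w, (d (w ++ [false]) + d (w ++ [true])) / 2 ≤ d w) (h2 : d [] ≤ (1 / 2) ^ k)
    (h3 : ∀ v : List Bool, |(val v : ℝ) / 2 ^ (k + v.length + 1) - d v| ≤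
      2 * (1 / 2) ^ (k + v.length + 1)) (w : List Bool) :
    1 ≤ cap k val w ∨ d w + (1 / 2) ^ (k + w.length) ≤ cap k val w := by
  induction w using List.reverseRecOn with
  | nil =>
    right
    have e : cap k val [] = 2 * (1 / 2) ^ k := by
      unfold cap
      rw [leg_nil, List.length_nil, one_div_pow, show k + 0 + 2 = k + 2 by ring, pow_add]
      field_simp
      norm_num
    rw [e, List.length_nil, add_zero]
    linarith
  | append_singleton w b ih =>
    by_cases hc : 1 ≤ cap k val w
    · exact Or.inl (cap_stay k val w b hc)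
    right
    have ih := ih.resolve_left hc
    rw [one_le_cap] at hc
    set n := w.length with hn
    have hu := h3 (w ++ [b])
    have hv := h3 (w ++ [!b])
    simp only [List.length_append, List.length_singleton] at hu hv ⊢
    rw [← hn] at hu hv
    set t := k + n + 2 with ht
    have e1 : k + (n + 1) + 1 = t := by rw [ht]; ring
    rw [e1] at hu hv
    set u := val (w ++ [b]) with hu'
    set v := val (w ++ [!b]) with hv'
    set a := leg k val w with ha
    have hT : (0 : ℝ) < 2 ^ t := by positivity
    have hcap : cap k val w = (a : ℝ) / 2 ^ t := rfl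
    rw [hcap] at ih
    have e2 : ((1 : ℝ) / 2) ^ (k + n) = 4 * (1 / 2) ^ t := by
      rw [ht, pow_add]; norm_num; ring
    have e3 : ((1 : ℝ) / 2) ^ (k + (n + 1)) = 2 * (1 / 2) ^ t := by
      rw [ht, show k + n + 2 = (k + (n + 1)) + 1 by ring, pow_succ]; ring
    have hd : d (w ++ [b]) + d (w ++ [!b]) ≤ 2 * d w := by
      have := h1 w
      cases b
      · simp only [Bool.not_false]; linarith
      · simp only [Bool.not_true]; linarith
    rw [e2] at ih
    obtain ⟨hu1, hu2⟩ := abs_le.1 hu
    obtain ⟨hv1, hv2⟩ := abs_le.1 hv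
    have hpos : (0 : ℝ) < (1 / 2) ^ t := by positivity
    have hwb := h0 (w ++ [b])
    have hwb' := h0 (w ++ [!b])
    have k1 : (0 : ℝ) < 2 * (a / 2 ^ t) + u / 2 ^ t - v / 2 ^ t := by linarith
    have k2 : (0 : ℝ) < 2 * (a / 2 ^ t) + v / 2 ^ t - u / 2 ^ t := by linarith
    have k1' : v ≤ 2 * a + u := by
      have : (0 : ℝ) < (2 * a + u - v) / 2 ^ t := by
        rw [sub_div, add_div, mul_div_assoc]; exact k1
      have := (div_pos_iff_of_pos_right hT).1 this
      have h4 : (v : ℝ) ≤ 2 * a + u := by linarith
      exact_mod_cast h4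
    have k2' : u ≤ 2 * a + v := by
      have : (0 : ℝ) < (2 * a + v - u) / 2 ^ t := by
        rw [sub_div, add_div, mul_div_assoc]; exact k2
      have := (div_pos_iff_of_pos_right hT).1 this
      have h4 : (u : ℝ) ≤ 2 * a + v := by linarith
      exact_mod_cast h4
    have hleg : cap k val (w ++ [b]) = (2 * (a / 2 ^ t) + u / 2 ^ t - v / 2 ^ t) / 2 := by
      unfold cap
      rw [leg_append, ← hn, ← ht, ← ha, ← hu', ← hv', List.length_append, List.length_singleton,
        ← hn]
      unfold upd
      rw [if_neg (by omega), Nat.cast_sub k1', show k + (n + 1) + 2 = t + 1 by rw [ht]; ring,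
        pow_succ]
      push_cast
      field_simp
    rw [hleg, e3]
    linarith

end Pool.Agent.Z45.PN
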