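import Pool.Agent.Z45.PN.Stage

/-!
# The martingale that bets on the stored answers
-/

namespace Pool.Agent.Z45.PN

open Pool.Agent.NPC Pool.Agent.H620R2.Gauge

theorem bits_two_pow (n : ℕ) : (2 ^ n).bits = List.replicate n false ++ [true] := by
  induction n with
  | zero => simp
  | succ n ih =>
    have h : 2 ^ (n + 1) = Nat.bit false (2 ^ n) := by rw [Nat.bit_val, pow_succ]; simp; ring
    rw [h, Nat.bits_append_bit _ _ (fun h0 => absurd h0 (by positivity)), ih]
    rfl

theorem str_two_pow (n : ℕ) : str (2 ^ n - 1) = List.replicate n false := by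
  unfold str
  rw [Nat.sub_add_cancel Nat.one_le_two_pow, bits_two_pow]
  simp

open Classical in
theorem getD_pref (L : Set (List Bool)) {N i : ℕ} (h : i < N) :
    (pref L N).getD i false = decide (str i ∈ L) := by
  unfold pref
  rw [List.getD_eq_getElem _ _ (by simpa using h), List.getElem_ofFn]

/-- all predictions of the component `e` were right -/
def okP (S : Set ℕ) (A : Oracle) (e : ℕ) (w : List Bool) : Prop :=
  ∀ n ∈ S, 2 ^ n ≤ w.length → e < rk S n → w.getD (2 ^ n - 1) false = A (pl e n)

theorem okP_append (S : Set ℕ) (A : Oracle) (e : ℕ) (w : List Bool) (b : Bool) :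
    okP S A e (w ++ [b]) ↔ okP S A e w ∧
      ∀ n ∈ S, 2 ^ n = w.length + 1 → e < rk S n → b = A (pl e n) := by
  have h1 : ∀ n, 2 ^ n ≤ w.length → (w ++ [b]).getD (2 ^ n - 1) false =
      w.getD (2 ^ n - 1) false := by
    intro n hn
    have : 0 < 2 ^ n := by positivity
    rw [List.getD_eq_getElem _ _ (by simp; omega), List.getD_eq_getElem _ _ (by omega),
      List.getElem_append_left]
  have h2 : ∀ n, 2 ^ n = w.length + 1 → (w ++ [b]).getD (2 ^ n - 1) false = b := by
    intro n hn
    rw [hn, Nat.add_sub_cancel, List.getD_eq_getElem _ _ (by simp)]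
    simp
  constructor
  · intro h
    refine ⟨fun n hn h3 he => ?_, fun n hn h3 he => ?_⟩
    · rw [← h1 n h3]
      exact h n hn (by rw [List.length_append, List.length_singleton]; omega) he
    · rw [← h n hn (by rw [List.length_append, List.length_singleton]; omega) he, h2 n h3]
  · rintro ⟨h3, h4⟩ n hn h5 he
    rw [List.length_append, List.length_singleton] at h5
    rcases Nat.lt_or_ge w.length (2 ^ n) with h | h
    · have h6 : 2 ^ n = w.length + 1 := by omega
      rw [h2 n h6]
      exact h4 n hn h6 he
    · rw [h1 n h]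
      exact h3 n hn h he

/-- the number of stages that are decided -/
noncomputable def J (S : Set ℕ) (w : List Bool) : ℕ := rk S w.length.size

open Classical in
/-- the numerator of the martingale -/
noncomputable def num (S : Set ℕ) (A : Oracle) (w : List Bool) : ℕ :=
  1 + ∑ e ∈ Finset.range (J S w), if okP S A e w then 4 ^ (J S w - 1 - e) else 0

theorem size_stage {n L : ℕ} (h : 2 ^ n = L + 1) : L.size = n ∧ (L + 1).size = n + 1 := by
  constructor
  · apply le_antisymm
    · rw [Nat.size_le]; omega
    · by_contra hcon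
      rw [not_le] at hcon
      have h1 := Nat.lt_size_self L
      have h2 : 2 ^ (L.size + 1) ≤ 2 ^ n := Nat.pow_le_pow_right (by norm_num) hcon
      rw [pow_succ] at h2
      have h3 : 0 < 2 ^ L.size := by positivity
      rcases Nat.eq_zero_or_pos L with h4 | h4
      · subst h4
        have : n = 0 := by
          rcases Nat.eq_zero_or_pos n with h5 | h5
          · exact h5
          · have : 2 ^ 1 ≤ 2 ^ n := Nat.pow_le_pow_right (by norm_num) h5
            omega
        omega
      · omega
  · rw [← h, Nat.size_pow]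

theorem size_no_stage {L : ℕ} (h : ¬ ∃ n, 2 ^ n = L + 1) : (L + 1).size = L.size := by
  apply le_antisymm
  · rw [Nat.size_le]
    have h1 := Nat.lt_size_self L
    rcases Nat.lt_or_ge (L + 1) (2 ^ L.size) with h2 | h2
    · exact h2
    · exact absurd ⟨L.size, by omega⟩ h
  · exact Nat.size_le_size (Nat.le_succ L)

theorem rk_mono (S : Set ℕ) {m n : ℕ} (h : m ≤ n) : rk S m ≤ rk S n := by
  classical
  unfold rk
  apply Finset.card_le_card
  intro i hi
  rw [Finset.mem_filter, Finset.mem_range] at hi ⊢
  exact ⟨by omega, hi.2⟩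

open Classical in
theorem num_split (S : Set ℕ) (A : Oracle) (w : List Bool) :
    (∀ b, J S (w ++ [b]) = J S w + 1 ∧ num S A (w ++ [false]) + num S A (w ++ [true]) =
      4 * num S A w) ∨
    (∀ b, J S (w ++ [b]) = J S w ∧ num S A (w ++ [false]) + num S A (w ++ [true]) =
      2 * num S A w) := by
  by_cases h : ∃ n ∈ S, 2 ^ n = w.length + 1
  · left
    obtain ⟨n, hn, hw⟩ := h
    obtain ⟨h1, h2⟩ := size_stage hw
    have hJ : ∀ b, J S (w ++ [b]) = J S w + 1 := by
      intro b
      unfold J
      rw [List.length_append, List.length_singleton, h1, h2, rk_succ, if_pos hn]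
    have hJw : J S w = rk S n := by unfold J; rw [h1]
    have hok : ∀ e b, okP S A e (w ++ [b]) ↔ okP S A e w ∧ (e < rk S n → b = A (pl e n)) := by
      intro e b
      rw [okP_append]
      constructor
      · rintro ⟨h3, h4⟩
        exact ⟨h3, h4 n hn hw⟩
      · rintro ⟨h3, h4⟩
        refine ⟨h3, fun m hm hmw he => ?_⟩
        have h5 : m = n := Nat.pow_right_injective le_rfl (by simp only; omega)
        subst h5
        exact h4 he
    have hlast : ∀ b, okP S A (J S w) (w ++ [b]) := by
      intro b
      rw [hok]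
      refine ⟨fun m hm hmw he => ?_, fun he => absurd he (by rw [hJw]; exact lt_irrefl _)⟩
      exfalso
      have h5 : m < n := by
        have : 2 ^ m < 2 ^ n := by omega
        exact (Nat.pow_lt_pow_iff_right (by norm_num)).1 this
      have := rk_mono S h5.le
      omega
    have hnum : ∀ b, num S A (w ++ [b]) = 2 + 4 * ∑ e ∈ Finset.range (J S w),
        if okP S A e w ∧ b = A (pl e n) then 4 ^ (J S w - 1 - e) else 0 := by
      intro b
      unfold num
      rw [hJ, Finset.sum_range_succ, if_pos (hlast b), Nat.add_sub_cancel, Nat.sub_self, pow_zero,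
        Finset.mul_sum]
      have h3 : ∀ e ∈ Finset.range (J S w), (if okP S A e (w ++ [b]) then 4 ^ (J S w - e) else 0) =
          4 * (if okP S A e w ∧ b = A (pl e n) then 4 ^ (J S w - 1 - e) else 0) := by
        intro e he
        rw [Finset.mem_range] at he
        have h4 : okP S A e (w ++ [b]) ↔ okP S A e w ∧ b = A (pl e n) := by
          rw [hok]
          exact ⟨fun h => ⟨h.1, h.2 (by omega)⟩, fun h => ⟨h.1, fun _ => h.2⟩⟩
        have h5 : J S w - e = (J S w - 1 - e) + 1 := by omega
        by_cases h6 : okP S A e w ∧ b = A (pl e n)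
        · rw [if_pos h6, if_pos (h4.2 h6), h5, pow_succ]; ring
        · rw [if_neg h6, if_neg (fun h => h6 (h4.1 h))]
      rw [Finset.sum_congr rfl h3]
      ring
    intro b
    refine ⟨hJ b, ?_⟩
    rw [hnum, hnum]
    unfold num
    have h7 : (∑ e ∈ Finset.range (J S w),
        if okP S A e w ∧ false = A (pl e n) then 4 ^ (J S w - 1 - e) else 0) +
        (∑ e ∈ Finset.range (J S w),
        if okP S A e w ∧ true = A (pl e n) then 4 ^ (J S w - 1 - e) else 0) =
        ∑ e ∈ Finset.range (J S w), if okP S A e w then 4 ^ (J S w - 1 - e) else 0 := by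
      rw [← Finset.sum_add_distrib]
      apply Finset.sum_congr rfl
      intro e _
      by_cases h8 : okP S A e w
      · cases A (pl e n) <;> simp [h8]
      · simp [h8]
    omega
  · right
    have hok : ∀ e b, okP S A e (w ++ [b]) ↔ okP S A e w := by
      intro e b
      rw [okP_append]
      constructor
      · exact fun h3 => h3.1
      · exact fun h3 => ⟨h3, fun n hn hw => absurd ⟨n, hn, hw⟩ h⟩
    have hJ : ∀ b, J S (w ++ [b]) = J S w := by
      intro b
      unfold J
      rw [List.length_append, List.length_singleton]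
      by_cases h2 : ∃ n, 2 ^ n = w.length + 1
      · obtain ⟨n, hn⟩ := h2
        obtain ⟨h3, h4⟩ := size_stage hn
        rw [h3, h4, rk_succ, if_neg (fun h5 => h ⟨n, h5, hn⟩), add_zero]
      · rw [size_no_stage h2]
    have hnum : ∀ b, num S A (w ++ [b]) = num S A w := by
      intro b
      unfold num
      rw [hJ]
      congr 1
      apply Finset.sum_congr rfl
      intro e _
      by_cases h8 : okP S A e w
      · rw [if_pos h8, if_pos ((hok e b).2 h8)]
      · rw [if_neg h8, if_neg (fun h => h8 ((hok e b).1 h))]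
    intro b
    refine ⟨hJ b, ?_⟩
    rw [hnum, hnum]
    ring

/-- the martingales -/
noncomputable def mart (S : Set ℕ) (A : Oracle) (k : ℕ) (w : List Bool) : ℝ :=
  (num S A w : ℝ) / 2 ^ (k + J S w)

theorem mart_dens (S : Set ℕ) (A : Oracle) (k : ℕ) (w : List Bool) :
    (mart S A k (w ++ [false]) + mart S A k (w ++ [true])) / 2 ≤ mart S A k w := by
  apply le_of_eq
  unfold mart
  rcases num_split S A w with h | h
  · have h1 := (h false).1
    have h2 := (h true).1
    have h3 : (num S A (w ++ [false]) : ℝ) + num S A (w ++ [true]) = 4 * num S A w := by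
      exact_mod_cast (h true).2
    rw [h1, h2, ← add_div, h3, show k + (J S w + 1) = k + J S w + 1 by ring, pow_succ]
    field_simp
    ring
  · have h1 := (h false).1
    have h2 := (h true).1
    have h3 : (num S A (w ++ [false]) : ℝ) + num S A (w ++ [true]) = 2 * num S A w := by
      exact_mod_cast (h true).2
    rw [h1, h2, ← add_div, h3]
    ring

theorem mart_nil (S : Set ℕ) (A : Oracle) (k : ℕ) : mart S A k [] = (1 / 2) ^ k := by
  have hJ : J S [] = 0 := by
    unfold J
    have := rk_le S ([] : List Bool).length.size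
    simpa using this
  unfold mart num
  rw [hJ]
  simp

theorem exists_rk {S : Set ℕ} (hS : S.Infinite) (t : ℕ) : ∃ m, t ≤ rk S m := by
  classical
  obtain ⟨T, hT, hc⟩ := hS.exists_subset_card_eq t
  obtain ⟨m, hm⟩ := T.bddAbove
  refine ⟨m + 1, ?_⟩
  rw [← hc]
  unfold rk
  apply Finset.card_le_card
  intro i hi
  rw [Finset.mem_filter, Finset.mem_range]
  exact ⟨Nat.lt_succ_of_le (hm hi), hT hi⟩

theorem mart_cov {S : Set ℕ} (hS : S.Infinite) (A : Oracle) (k e : ℕ) (L : Set (List Bool))
    (h : ∀ n ∈ S, e < rk S n → (List.replicate n false ∈ L ↔ A (pl e n) = true)) :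
    ∃ N, 1 ≤ mart S A k (pref L N) := by
  classical
  obtain ⟨m, hm⟩ := exists_rk hS (k + 2 + 2 * e)
  refine ⟨2 ^ m, ?_⟩
  have hlen : (pref L (2 ^ m)).length = 2 ^ m := by simp [pref]
  have hJ : k + 2 + 2 * e ≤ J S (pref L (2 ^ m)) := by
    unfold J
    rw [hlen, Nat.size_pow]
    exact hm.trans (rk_mono S (Nat.le_succ m))
  have hok : okP S A e (pref L (2 ^ m)) := by
    intro n hn hle he
    rw [hlen] at hle
    have hpos : 0 < 2 ^ n := by positivity
    rw [getD_pref L (by omega), str_two_pow]
    have := h n hn he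
    cases hA : A (pl e n)
    · rw [hA] at this
      simp only [Bool.false_eq_true, iff_false] at this
      simpa using this
    · rw [hA] at this
      simp only [iff_true] at this
      simpa using this
  have hnum : 4 ^ (J S (pref L (2 ^ m)) - 1 - e) ≤ num S A (pref L (2 ^ m)) := by
    unfold num
    have h1 := Finset.single_le_sum (f := fun e => if okP S A e (pref L (2 ^ m)) then
      4 ^ (J S (pref L (2 ^ m)) - 1 - e) else 0) (s := Finset.range (J S (pref L (2 ^ m))))
      (fun _ _ => Nat.zero_le _) (Finset.mem_range.2 (show e < _ by omega))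
    simp only [if_pos hok] at h1
    omega
  unfold mart
  rw [one_le_div (by positivity)]
  calc (2 : ℝ) ^ (k + J S (pref L (2 ^ m))) ≤ 2 ^ (2 * (J S (pref L (2 ^ m)) - 1 - e)) :=
        pow_le_pow_right₀ (by norm_num) (by omega)
    _ = ((4 ^ (J S (pref L (2 ^ m)) - 1 - e) : ℕ) : ℝ) := by
        rw [pow_mul]; norm_num
    _ ≤ _ := by exact_mod_cast hnum

end Pool.Agent.Z45.PN
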