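import Pool.Agent.Z45.UO.Derand

/-!
# Mean values over the oracles that agree with a table
-/

namespace Pool.Agent.Z45.PN

open Pool.Agent.NPC Pool.Agent.H620R2.Gauge MeasureTheory Pool.Agent.Z45.OG Pool.Agent.Z45.UO

theorem measurableSet_tabSet (τ : Tab) : MeasurableSet (tabSet τ) := by
  induction τ with
  | nil => rw [tabSet_nil]; exact MeasurableSet.univ
  | cons e τ ih => rw [tabSet_cons]; exact ih.inter (measurable_coord _ _)

/-- the function depends on finitely many places -/
def Loc {β : Type} (g : Oracle → β) : Prop :=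
  ∃ S : Finset (List Bool), ∀ B B' : Oracle, (∀ q ∈ S, B q = B' q) → g B = g B'

theorem Loc.comp {β γ : Type} {g : Oracle → β} (hg : Loc g) (h : β → γ) :
    Loc (fun B => h (g B)) := by
  obtain ⟨S, hS⟩ := hg
  exact ⟨S, fun B B' hB => congrArg h (hS B B' hB)⟩

theorem Loc.integrable {g : Oracle → ℝ} (hg : Loc g) : Integrable g ranO := by
  classical
  obtain ⟨S, hS⟩ := hg
  set h : (S → Bool) → ℝ := fun v => g (fun q => if hq : q ∈ S then v ⟨q, hq⟩ else false) with hh
  have h1 : g = h ∘ fun (B : Oracle) (q : S) => B q := by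
    funext B
    simp only [hh, Function.comp_apply]
    apply hS
    intro q hq
    simp [hq]
  have h2 : Measurable (fun (B : Oracle) (q : S) => B q) :=
    measurable_pi_lambda _ fun q => measurable_pi_apply _
  have h3 : Measurable h := measurable_of_countable h
  have h4 : Measurable g := by
    rw [h1]
    exact h3.comp h2
  obtain ⟨C, hC⟩ : ∃ C : ℝ, ∀ v, ‖h v‖ ≤ C := by
    obtain ⟨C, hC⟩ := (Set.finite_range (fun v => ‖h v‖)).bddAbove
    exact ⟨C, fun v => hC ⟨v, rfl⟩⟩
  refine Integrable.of_bound h4.aestronglyMeasurable C (Filter.Eventually.of_forall fun B => ?_)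
  rw [h1]
  exact hC (fun q : S => B q)

/-- the mean value of a function over the oracles that agree with a table -/
noncomputable def mean (g : Oracle → ℝ) (τ : Tab) : ℝ :=
  (∫ B in tabSet τ, g B ∂ranO) * 2 ^ τ.length

theorem mean_split {g : Oracle → ℝ} (hg : Integrable g ranO) (q : List Bool) (τ : Tab) :
    mean g ((q, false) :: τ) + mean g ((q, true) :: τ) = 2 * mean g τ := by
  unfold mean
  have h := integral_inter_add_sdiff (μ := ranO) (s := tabSet τ) (f := g)
    (measurable_coord q false) hg.integrableOn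
  have h2 : tabSet τ \ {A : Oracle | A q = false} = tabSet τ ∩ {A : Oracle | A q = true} := by
    ext A
    simp
  rw [h2] at h
  rw [tabSet_cons, tabSet_cons, ← h]
  simp only [List.length_cons, pow_succ]
  ring

theorem mean_nonneg {g : Oracle → ℝ} (hg : ∀ B, 0 ≤ g B) (τ : Tab) : 0 ≤ mean g τ :=
  mul_nonneg (integral_nonneg hg) (by positivity)

theorem mean_eq_of_const {g : Oracle → ℝ} {σ : Tab} (hσ : Good σ) {v : ℝ}
    (h : ∀ B ∈ tabSet σ, g B = v) : mean g σ = v := by
  unfold mean
  rw [setIntegral_congr_fun (g := fun _ => v) (measurableSet_tabSet σ) h, setIntegral_const,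
    real_tabSet hσ, smul_eq_mul]
  rw [mul_assoc, mul_comm v, ← mul_assoc, ← mul_pow]
  norm_num

theorem mean_add {g h : Oracle → ℝ} (hg : Integrable g ranO) (hh : Integrable h ranO) (τ : Tab) :
    mean (fun B => g B + h B) τ = mean g τ + mean h τ := by
  unfold mean
  rw [integral_add hg.integrableOn hh.integrableOn, add_mul]

theorem mean_const_mul (g : Oracle → ℝ) (r : ℝ) (τ : Tab) :
    mean (fun B => r * g B) τ = r * mean g τ := by
  unfold mean
  rw [integral_const_mul, mul_assoc]

theorem sum_ext_of {φ : Tab → ℝ}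
    (hφ : ∀ q τ, φ ((q, false) :: τ) + φ ((q, true) :: τ) = 2 * φ τ) (Q : List (List Bool))
    (τ : Tab) : ((ext Q τ).map φ).sum = 2 ^ Q.length * φ τ := by
  induction Q with
  | nil => simp [ext]
  | cons q Q ih =>
    have h : ∀ T : List Tab, ((dbl q T).map φ).sum = 2 * (T.map φ).sum := by
      intro T
      induction T with
      | nil => simp [dbl]
      | cons σ T ihT =>
        have h1 := hφ q σ
        simp only [dbl, List.map_append, List.map_map, List.sum_append, List.map_cons,
          List.sum_cons] at ihT ⊢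
        linarith
    rw [ext_cons, h, ih, List.length_cons, pow_succ]
    ring

/-- the mean value is the mean of the values for the extensions of the table -/
theorem mean_eq {g : Oracle → ℝ} (hg : Integrable g ranO) (Q : List (List Bool)) (τ : Tab)
    (f : Tab → ℝ) (h : ∀ σ ∈ ext Q τ, Good σ ∧ ∀ B ∈ tabSet σ, g B = f σ) :
    2 ^ Q.length * mean g τ = ((ext Q τ).map f).sum := by
  rw [← sum_ext_of (mean_split hg)]
  congr 1
  apply List.map_congr_left
  intro σ hσ
  exact mean_eq_of_const (h σ hσ).1 (h σ hσ).2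

theorem sum_map_le {α : Type} (l : List α) (f g : α → ℝ) (h : ∀ a ∈ l, f a ≤ g a) :
    (l.map f).sum ≤ (l.map g).sum := by
  induction l with
  | nil => simp
  | cons a l ih =>
    rw [List.map_cons, List.map_cons, List.sum_cons, List.sum_cons]
    exact add_le_add (h a List.mem_cons_self) (ih fun b hb => h b (List.mem_cons_of_mem _ hb))

theorem sum_map_mul {α : Type} (l : List α) (f : α → ℝ) (r : ℝ) :
    (l.map (fun a => r * f a)).sum = r * (l.map f).sum := by
  induction l with
  | nil => simp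
  | cons a l ih =>
    rw [List.map_cons, List.map_cons, List.sum_cons, List.sum_cons, ih]
    ring

/-- Let all values of `g` on the extensions of the table be constant, and let the set `G`
restricted to the oracles with `1 ≤ g B` have almost the full gain. Then the mean value of `g` is
more than one half. -/
theorem mean_ge {G : Set Oracle} {P : Tab → Prop} {τ : Tab} {Q : List (List Bool)}
    {g : Oracle → ℝ} (hg : Integrable g ranO) (hg0 : ∀ B, 0 ≤ g B)
    (hpos : 0 < gain G τ)
    (hmax : ∀ τ', P τ' → Good τ' → 3 * gain G τ' ≤ 4 * gain G τ)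
    (hP : ∀ σ ∈ ext Q τ, P σ ∧ Good σ) (f : Tab → ℝ)
    (h : ∀ σ ∈ ext Q τ, ∀ B ∈ tabSet σ, g B = f σ)
    (h34 : 3 * gain G τ ≤ 4 * gain (G ∩ {B | 1 ≤ g B}) τ) : 1 / 2 ≤ mean g τ := by
  have hne : ∀ σ ∈ ext Q τ, 0 ≤ f σ := by
    intro σ hσ
    have h1 := mean_eq_of_const (hP σ hσ).2 (h σ hσ)
    rw [← h1]
    exact mean_nonneg hg0 σ
  have h1 := sum_ext (G ∩ {B | 1 ≤ g B}) Q τ
  have h2 := mean_eq hg Q τ f fun σ hσ => ⟨(hP σ hσ).2, h σ hσ⟩
  have h3 : ((ext Q τ).map (gain (G ∩ {B | 1 ≤ g B}))).sum ≤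
      ((ext Q τ).map (fun σ => (4 / 3 * gain G τ) * f σ)).sum := by
    refine sum_map_le _ _ _ fun σ hσ => ?_
    have h4 := hmax σ (hP σ hσ).1 (hP σ hσ).2
    have h5 : gain (G ∩ {B | 1 ≤ g B}) σ ≤ gain G σ := by
      unfold gain
      refine mul_le_mul_of_nonneg_right ?_ (by positivity)
      exact measureReal_mono (Set.inter_subset_inter_left _ Set.inter_subset_left)
    by_cases h6 : 1 ≤ f σ
    · nlinarith
    · have h7 : G ∩ {B | 1 ≤ g B} ∩ tabSet σ = ∅ := by
        rw [Set.eq_empty_iff_forall_notMem]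
        rintro B ⟨⟨_, hB1⟩, hB2⟩
        rw [Set.mem_ofPred_eq, h σ hσ B hB2] at hB1
        exact h6 hB1
      have h8 : gain (G ∩ {B | 1 ≤ g B}) σ = 0 := by
        unfold gain
        rw [h7, measureReal_empty, zero_mul]
      rw [h8]
      have := hne σ hσ
      positivity
  rw [sum_map_mul, h1, ← h2] at h3
  have h9 : (0 : ℝ) < 2 ^ Q.length := by positivity
  have h10 : gain (G ∩ {B | 1 ≤ g B}) τ ≤ 4 / 3 * gain G τ * mean g τ := by
    have : (2 : ℝ) ^ Q.length * gain (G ∩ {B | 1 ≤ g B}) τ ≤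
        2 ^ Q.length * (4 / 3 * gain G τ * mean g τ) := by linarith
    exact le_of_mul_le_mul_left this h9
  by_contra hcon
  rw [not_le] at hcon
  nlinarith

/-- continuity from below -/
theorem exists_gain {G : Set Oracle} {τ : Tab} (hpos : 0 < gain G τ) {W : ℕ → Set Oracle}
    (hW : Monotone W) (h : G ∩ tabSet τ ⊆ ⋃ n, W n) :
    ∃ n, 3 * gain G τ ≤ 4 * gain (G ∩ W n) τ := by
  by_contra hcon
  push Not at hcon
  have hm : Monotone (fun n => G ∩ W n ∩ tabSet τ) := fun m n hmn =>
    Set.inter_subset_inter_left _ (Set.inter_subset_inter_right _ (hW hmn))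
  have h1 : ranO (⋃ n, G ∩ W n ∩ tabSet τ) = ⨆ n, ranO (G ∩ W n ∩ tabSet τ) :=
    hm.measure_iUnion
  have h2 : (⋃ n, G ∩ W n ∩ tabSet τ) = G ∩ tabSet τ := by
    ext B
    simp only [Set.mem_iUnion, Set.mem_inter_iff]
    constructor
    · rintro ⟨n, ⟨h1, _⟩, h3⟩
      exact ⟨h1, h3⟩
    · rintro ⟨h1, h3⟩
      obtain ⟨n, hn⟩ := Set.mem_iUnion.1 (h ⟨h1, h3⟩)
      exact ⟨n, ⟨h1, hn⟩, h3⟩
  rw [h2] at h1
  have h3 : ranO (G ∩ tabSet τ) ≤ ENNReal.ofReal (3 / 4 * ranO.real (G ∩ tabSet τ)) := by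
    rw [h1]
    refine iSup_le fun n => ?_
    have h4 := hcon n
    unfold gain at h4
    have h5 : (0 : ℝ) < 2 ^ τ.length := by positivity
    have h6 : ranO.real (G ∩ W n ∩ tabSet τ) ≤ 3 / 4 * ranO.real (G ∩ tabSet τ) := by
      have : (4 * ranO.real (G ∩ W n ∩ tabSet τ)) * 2 ^ τ.length ≤
          (3 * ranO.real (G ∩ tabSet τ)) * 2 ^ τ.length := by linarith
      have := le_of_mul_le_mul_right this h5
      linarith
    rw [← ENNReal.ofReal_toReal (measure_ne_top ranO (G ∩ W n ∩ tabSet τ))]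
    exact ENNReal.ofReal_le_ofReal h6
  have h7 : ranO.real (G ∩ tabSet τ) ≤ 3 / 4 * ranO.real (G ∩ tabSet τ) := by
    have h8 : 0 ≤ 3 / 4 * ranO.real (G ∩ tabSet τ) :=
      mul_nonneg (by norm_num) measureReal_nonneg
    exact ENNReal.toReal_le_of_le_ofReal h8 h3
  have h9 : 0 < ranO.real (G ∩ tabSet τ) := by
    unfold gain at hpos
    exact (pos_iff_pos_of_mul_pos hpos).2 (by positivity)
  linarith

end Pool.Agent.Z45.PN
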