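import Pool.Agent.Z45.PN.Comp
import Pool.Agent.Z45.OG.Embed

/-!
# Relative to many oracles NP has p-measure zero
-/

namespace Pool.Agent.Z45.PN

open Pool.Agent.NPC Pool.Agent.H620R2.Gauge Pool.Agent.Z45.OG MeasureTheory

theorem poly_lt_pow (q : Polynomial ℕ) : ∃ n0, ∀ n, n0 ≤ n → q.eval n < 2 ^ n := by
  obtain ⟨d, hd⟩ := poly_le_pow q
  have h1 : Filter.Tendsto (fun n : ℕ => (n : ℝ) ^ d / 2 ^ n) Filter.atTop (nhds 0) :=
    tendsto_pow_const_div_const_pow_of_one_lt d (by norm_num)
  have h2 := (h1.comp (Filter.tendsto_add_atTop_nat 2)).eventually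
    (gt_mem_nhds (show (0 : ℝ) < 1 / 4 by norm_num))
  obtain ⟨n0, hn0⟩ := Filter.eventually_atTop.1 h2
  refine ⟨n0, fun n hn => ?_⟩
  have h3 := hn0 n hn
  simp only [Function.comp_apply] at h3
  rw [div_lt_iff₀ (by positivity), pow_add] at h3
  have h4 : ((n + 2 : ℕ) : ℝ) ^ d < 2 ^ n := by
    refine h3.trans_le (le_of_eq ?_)
    ring
  have h5 : (n + 2) ^ d < 2 ^ n := by exact_mod_cast h4
  exact (hd n).trans_lt h5

/-- a numbering of the nondeterministic algorithms in which each one occurs infinitely often -/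
theorem exists_numbering : ∃ g : ℕ → Alg × Polynomial ℕ, ∀ v n, ∃ m, n ≤ m ∧ g m = v := by
  have : Countable (Polynomial ℕ) := by
    have hinj : Function.Injective (fun p : Polynomial ℕ => (p.toFinsupp.coeff : ℕ →₀ ℕ)) := by
      intro p q h
      ext n
      exact DFunLike.congr_fun h n
    exact hinj.countable
  have : Nonempty Alg := ⟨⟨fun x => x, polyTime_id, 0⟩⟩
  obtain ⟨h, hh⟩ := exists_surjective_nat (ℕ × (Alg × Polynomial ℕ))
  refine ⟨fun m => (h m).2, fun v n => ?_⟩
  by_contra hcon
  push Not at hcon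
  have h1 : Set.Infinite {m | (h m).2 = v} := by
    intro hfin
    have h2 : (Prod.fst '' (h '' {m | (h m).2 = v})).Finite := (hfin.image h).image _
    have h3 : Prod.fst '' (h '' {m | (h m).2 = v}) = Set.univ := by
      ext i
      simp only [Set.mem_univ, iff_true]
      obtain ⟨m, hm⟩ := hh (i, v)
      exact ⟨(i, v), ⟨m, by simp [hm], hm⟩, rfl⟩
    rw [h3] at h2
    exact Set.infinite_univ h2
  obtain ⟨m, hm, hm'⟩ := h1.exists_gt n
  exact hcon m hm'.le hm

/-- the question number `e` for the length `n` -/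
def truth (g : ℕ → Alg × Polynomial ℕ) (e n : ℕ) (A : Oracle) : Prop :=
  ∃ w : List Bool, w.length ≤ (g e).2.eval n ∧
    (g e).1.out A (pairBits w (List.replicate n false)) = some [true]

theorem truth_iff {g : ℕ → Alg × Polynomial ℕ} {e n : ℕ} {A : Oracle} {M : Alg}
    {p : Polynomial ℕ} (h : g e = (M, p)) : truth g e n A ↔ ∃ w : List Bool,
      w.length ≤ p.eval n ∧ M.out A (pairBits w (List.replicate n false)) = some [true] := by
  unfold truth
  rw [h]

theorem pnull_lim {S : Set ℕ} (hS : S.Infinite) {V : List Bool → List Bool} (hV : PolyTime V)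
    (hSV : ∀ n, n ∈ S ↔ V (List.replicate n false) = [true]) {g : ℕ → Alg × Polynomial ℕ}
    (hg : ∀ v n, ∃ m, n ≤ m ∧ g m = v) (B : Oracle) :
    PNullRel (lim S (truth g) B) {L | IsNP (lim S (truth g) B) L} := by
  set A := lim S (truth g) B with hA
  obtain ⟨F, hF, hFm⟩ := mart_comp hV hSV A
  refine ⟨mart S A, F, ⟨?_, mart_dens S A, fun k => (mart_nil S A k).le, ?_⟩, hF, ?_⟩
  · intro k w
    unfold mart
    positivity
  · intro k L hL
    obtain ⟨W, p, ⟨M, hM⟩, hLW⟩ := hL
    obtain ⟨s, hs⟩ := M.out_local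
    obtain ⟨n0, hn0⟩ := poly_lt_pow (s.comp (Polynomial.C 2 * p + Polynomial.C 1 + Polynomial.X))
    obtain ⟨e, he, hge⟩ := hg (M, p) n0
    refine mart_cov hS A k e L fun n hn hr => ?_
    have hn1 : n0 ≤ n := by
      have := rk_le S n
      omega
    rw [lim_pl S (truth g) B hn hr, hLW, truth_iff hge]
    have hsame : ∀ w : List Bool, w.length ≤ p.eval (List.replicate n false).length →
        M.out (st S (truth g) B n) (pairBits w (List.replicate n false)) =
          M.out A (pairBits w (List.replicate n false)) := by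
      intro w hw
      rw [List.length_replicate] at hw
      obtain ⟨Q, _, hQ2, hQ3⟩ := hs A (pairBits w (List.replicate n false))
      apply hQ3
      intro q hq
      have h1 := hQ2 q hq
      have h2 : (pairBits w (List.replicate n false)).length ≤
          (Polynomial.C 2 * p + Polynomial.C 1 + Polynomial.X).eval n := by
        rw [length_pairBits, List.length_replicate]
        simp only [Polynomial.eval_add, Polynomial.eval_mul, Polynomial.eval_C, Polynomial.eval_X]
        omega
      have h3 := h1.trans (eval_mono s h2)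
      have h4 := hn0 n hn1
      rw [Polynomial.eval_comp] at h4
      exact (lim_eq S (truth g) B (h3.trans_lt h4)).symm
    constructor
    · rintro ⟨w, hw, h1⟩
      refine ⟨w, by rwa [List.length_replicate] at hw, ?_⟩
      rw [hsame w hw, hM, h1]
    · rintro ⟨w, hw, h1⟩
      rw [← List.length_replicate (n := n) (a := false)] at hw
      refine ⟨w, hw, ?_⟩
      rw [hsame w hw, hM, Option.some.injEq] at h1
      exact h1
  · intro k r w
    rw [hFm]
    simp

theorem not_null_pnull {S : Set ℕ} (hS : S.Infinite) {V : List Bool → List Bool}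
    (hV : PolyTime V) (hSV : ∀ n, n ∈ S ↔ V (List.replicate n false) = [true]) (f : ℕ → ℝ)
    (C : ℝ) (hf : ∀ N, (cnt S N : ℝ) ^ 2 ≤ f N + C) :
    ¬ Null f {A : Oracle | PNullRel A {L | IsNP A L}} := by
  classical
  obtain ⟨g, hg⟩ := exists_numbering
  refine not_null_of f Set.univ (by rw [measure_univ]; exact one_pos) (lim S (truth g)) (plc S)
    (fun B y hy => lim_not S (truth g) B hy) C (fun N => ?_) _
    (fun B _ => pnull_lim hS hV hSV hg B)
  refine le_trans ?_ (hf N)
  have h := card_plc S N
  have h2 : (((Finset.range N).filter (fun i => str i ∈ plc S)).card : ℝ) ≤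
      ((cnt S N ^ 2 : ℕ) : ℝ) := by exact_mod_cast h
  refine le_trans (le_of_eq ?_) (h2.trans (le_of_eq (by push_cast; ring)))
  congr 2

end Pool.Agent.Z45.PN
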