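import Pool.Agent.Z45.PN.Mean
import Pool.Agent.Z45.PN.Leg
import Pool.Agent.Z45.PN.Comp

/-!
# The approximations computed with a table instead of an oracle
-/

namespace Pool.Agent.Z45.PN

open Pool.Agent.NPC Pool.Agent.H620R2.Gauge MeasureTheory Pool.Agent.Z45.OG Pool.Agent.Z45.UO

/-- the number coded by a string, rounded down to a multiple of `2 ^ (-r)`; the numerator -/
def rnd (r : ℕ) (y : List Bool) : ℕ := valB (unpair y).1 * 2 ^ r / 2 ^ (unpair y).2.length

theorem rnd_spec (r : ℕ) (y : List Bool) : |(rnd r y : ℝ) / 2 ^ r - dyad y| ≤ (1 / 2) ^ r := by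
  unfold dyad
  set m := valB (unpair y).1 with hm
  set e := (unpair y).2.length with he
  have hq : rnd r y = m * 2 ^ r / 2 ^ e := rfl
  set q := rnd r y with hq'
  have h0 : 0 < 2 ^ e := by positivity
  have h1 : q * 2 ^ e ≤ m * 2 ^ r := by
    rw [hq]
    exact Nat.div_mul_le_self _ _
  have h2 : m * 2 ^ r < (q + 1) * 2 ^ e := by
    rw [hq, mul_comm (m * 2 ^ r / 2 ^ e + 1)]
    exact Nat.lt_mul_div_succ _ h0
  have h1' : (q : ℝ) * 2 ^ e ≤ m * 2 ^ r := by exact_mod_cast h1
  have h2' : (m : ℝ) * 2 ^ r < (q + 1) * 2 ^ e := by exact_mod_cast h2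
  have hr : (0 : ℝ) < 2 ^ r := by positivity
  have hee : (0 : ℝ) < 2 ^ e := by positivity
  have h3 : (q : ℝ) / 2 ^ r ≤ m / 2 ^ e := by
    rw [div_le_div_iff₀ hr hee]
    exact h1'
  have h4 : (m : ℝ) / 2 ^ e ≤ q / 2 ^ r + (1 / 2) ^ r := by
    rw [one_div_pow, ← add_div, div_le_div_iff₀ hee hr]
    exact h2'.le
  rw [abs_le]
  constructor
  · linarith
  · have : (0 : ℝ) < (1 / 2) ^ r := by positivity
    linarith

/-- the same for the result of a computation -/
def rndO (r : ℕ) (o : Option (List Bool)) : ℕ :=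
  match o with
  | none => 0
  | some y => rnd r y

/-- the input for the approximation of the value of the density function `k` at `v` -/
def inq (k : ℕ) (v : List Bool) : List Bool := inp k (k + v.length + 1) v

theorem length_inq (k : ℕ) (v : List Bool) : (inq k v).length = 4 * k + 3 * v.length + 4 := by
  unfold inq inp
  rw [length_pairBits, length_pairBits, List.length_replicate, List.length_replicate]
  ring

/-- the approximation computed with a table -/
def valS (M : Alg) (k : ℕ) (σ : Tab) (v : List Bool) : ℕ :=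
  rndO (k + v.length + 1) (lz M (inq k v) (M.p.eval (inq k v).length) [] σ [])

/-- the approximation computed with an oracle -/
noncomputable def valO (M : Alg) (c k : ℕ) (B : Oracle) (v : List Bool) : ℕ :=
  rndO (k + v.length + 1) (M.out (cut c B) (inq k v))

/-- the algorithm asks only questions of length at most `s(|x|)` -/
def Short (M : Alg) (s : Polynomial ℕ) : Prop := ∀ (A : Oracle) (x : List Bool),
  ∃ Q : Finset (List Bool), Q.card ≤ M.p.eval x.length ∧ (∀ q ∈ Q, q.length ≤ s.eval x.length) ∧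
    ∀ A' : Oracle, (∀ q ∈ Q, A' q = A q) → M.out A' x = M.out A x

theorem mis_ext {c : ℕ} {τ : Tab} (hτF : ∀ e ∈ τ, e.1 ∈ Free c) (hτ : Good τ) {D : ℕ} {σ : Tab}
    (hσ : σ ∈ ext (mis c (τ.map Prod.fst) D) τ) : (∀ e ∈ σ, e.1 ∈ Free c) ∧ Good σ := by
  have hQF : ∀ y ∈ mis c (τ.map Prod.fst) D, y ∈ Free c := fun y hy =>
    free_of_mem_FL (List.mem_of_mem_filter hy)
  have hnd : (mis c (τ.map Prod.fst) D ++ τ.map Prod.fst).Nodup := by
    rw [List.nodup_append]
    refine ⟨(nodup_FL _ _).filter _, hτ, fun y hy z hz hyz => ?_⟩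
    have h1 := (List.mem_filter.1 hy).2
    subst hyz
    simp [hz] at h1
  have h1 := keys_ext hσ
  refine ⟨fun e he => ?_, by unfold Good; rw [h1]; exact hnd⟩
  have h2 : e.1 ∈ σ.map Prod.fst := List.mem_map_of_mem he
  rw [h1, List.mem_append] at h2
  rcases h2 with h2 | h2
  · exact hQF _ h2
  · obtain ⟨e', he', h3⟩ := List.mem_map.1 h2
    rw [← h3]
    exact hτF e' he'

theorem sim_eq {M : Alg} {s : Polynomial ℕ} (hs : Short M s) {c : ℕ} {τ : Tab}
    (hτF : ∀ e ∈ τ, e.1 ∈ Free c) (hτ : Good τ) {D : ℕ} {σ : Tab}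
    (hσ : σ ∈ ext (mis c (τ.map Prod.fst) D) τ) {B : Oracle} (hB : B ∈ tabSet σ)
    {x : List Bool} (hx : s.eval x.length ≤ D) :
    lz M x (M.p.eval x.length) [] σ [] = M.out (cut c B) x := by
  have hP := mis_ext hτF hτ hσ
  set A' : Oracle := fun q => (look σ q).getD false with hA'
  have hlook : ∀ q b, look σ q = some b → cut c B q = b := by
    intro q b hb
    have h1 := look_some hb
    have h2 : B q = b := hB _ h1
    have h3 : q ∈ Free c := hP.1 _ h1
    rw [cut_free h3, h2]
  have h1 : lz M x (M.p.eval x.length) [] σ [] = M.out A' x := by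
    rw [Alg.out]
    refine lz_nil M x A' _ [] σ ?_ ?_
    · intro e he
      rw [hA']
      simp only
      cases hl : look σ e.1 with
      | none => exact absurd (List.mem_map_of_mem he) (look_none hl)
      | some b =>
        have h2 := look_some hl
        have h3 : (e.1, b) = e := List.inj_on_of_nodup_map hP.2 h2 he rfl
        rw [← h3]
        rfl
    · intro q hq
      rw [hA']
      simp only [hq]
      rfl
  rw [h1]
  obtain ⟨Q', _, hQ2, hQ3⟩ := hs (cut c B) x
  apply hQ3
  intro q hq
  rw [hA']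
  simp only
  cases hl : look σ q with
  | some b => exact (hlook q b hl).symm
  | none =>
    have h3 := look_none hl
    rw [keys_ext hσ, List.mem_append, not_or] at h3
    by_cases hF : q ∈ Free c
    · exfalso
      have h4 := mem_FL_of_free hF ((hQ2 q hq).trans hx)
      apply h3.1
      rw [mis, List.mem_filter]
      exact ⟨h4, by simpa using h3.2⟩
    · rw [cut_not hF]
      rfl

/-- the depth for prefixes of length at most `n` -/
def dep (s : Polynomial ℕ) (k n : ℕ) : ℕ := s.eval (4 * k + 3 * n + 4)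

theorem valS_eq {M : Alg} {s : Polynomial ℕ} (hs : Short M s) {c : ℕ} {τ : Tab}
    (hτF : ∀ e ∈ τ, e.1 ∈ Free c) (hτ : Good τ) {k n : ℕ} {σ : Tab}
    (hσ : σ ∈ ext (mis c (τ.map Prod.fst) (dep s k n)) τ) {B : Oracle} (hB : B ∈ tabSet σ)
    {v : List Bool} (hv : v.length ≤ n) : valS M k σ v = valO M c k B v := by
  unfold valS valO
  rw [sim_eq hs hτF hτ hσ hB]
  rw [length_inq]
  exact eval_mono s (by omega)

theorem loc_leg {M : Alg} {s : Polynomial ℕ} (hs : Short M s) (c k : ℕ) (w : List Bool) :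
    Loc (fun B => leg k (valO M c k B) w) := by
  classical
  refine ⟨(FL c (dep s k w.length)).toFinset, fun B B' h => leg_congr fun v hv => ?_⟩
  unfold valO
  congr 1
  obtain ⟨Q', _, hQ2, hQ3⟩ := hs (cut c B') (inq k v)
  apply hQ3
  intro q hq
  by_cases hF : q ∈ Free c
  · rw [cut_free hF, cut_free hF]
    apply h
    rw [List.mem_toFinset]
    refine mem_FL_of_free hF ((hQ2 q hq).trans ?_)
    rw [length_inq]
    exact eval_mono s (by omega)
  · rw [cut_not hF, cut_not hF]

/-- the strategy for an oracle -/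
noncomputable def capO (M : Alg) (c k : ℕ) (w : List Bool) (B : Oracle) : ℝ :=
  cap k (valO M c k B) w

theorem loc_cap {M : Alg} {s : Polynomial ℕ} (hs : Short M s) (c k : ℕ) (w : List Bool) :
    Loc (capO M c k w) :=
  (loc_leg hs c k w).comp fun a : ℕ => (a : ℝ) / 2 ^ (k + w.length + 2)

/-- the sum of the numerators for the extensions of the table -/
def tot (M : Alg) (s : Polynomial ℕ) (c : ℕ) (τ : Tab) (k : ℕ) (w : List Bool) : ℕ :=
  ((ext (mis c (τ.map Prod.fst) (dep s k w.length)) τ).map (fun σ => leg k (valS M k σ) w)).sum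

theorem sum_cast {α : Type} (l : List α) (f : α → ℕ) (r : ℝ) :
    (((l.map f).sum : ℕ) : ℝ) / r = (l.map (fun a => (f a : ℝ) / r)).sum := by
  induction l with
  | nil => simp
  | cons a l ih =>
    rw [List.map_cons, List.map_cons, List.sum_cons, List.sum_cons, ← ih]
    push_cast
    ring

theorem mean_capO {M : Alg} {s : Polynomial ℕ} (hs : Short M s) {c : ℕ} {τ : Tab}
    (hτF : ∀ e ∈ τ, e.1 ∈ Free c) (hτ : Good τ) (k : ℕ) (w : List Bool) :
    mean (capO M c k w) τ = (tot M s c τ k w : ℝ) /
      2 ^ ((mis c (τ.map Prod.fst) (dep s k w.length)).length + (k + w.length + 2)) := by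
  have h := mean_eq (loc_cap hs c k w).integrable (mis c (τ.map Prod.fst) (dep s k w.length)) τ
    (fun σ => (leg k (valS M k σ) w : ℝ) / 2 ^ (k + w.length + 2)) (fun σ hσ => by
      refine ⟨(mis_ext hτF hτ hσ).2, fun B hB => ?_⟩
      unfold capO cap
      congr 2
      exact leg_congr fun v hv => (valS_eq hs hτF hτ hσ hB hv).symm)
  rw [← sum_cast] at h
  rw [pow_add, ← div_div, div_right_comm]
  rw [eq_div_iff (by positivity), mul_comm]
  exact h

end Pool.Agent.Z45.PN
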