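import Pool.Agent.Z45.PN.NonNull
import Pool.Agent.H620R2.Gauge.C
import Pool.Agent.H620R2.Gauge2.Trans

/-!
# Relative to many oracles PSPACE has p-measure zero
-/

namespace Pool.Agent.Z45.PN

open Pool.Agent.NPC Pool.Agent.H620R2.Gauge Pool.Agent.Z45.OG MeasureTheory

theorem PNullRel.mono {A : Oracle} {X Y : Set (Set (List Bool))} (h : PNullRel A Y)
    (hXY : X ⊆ Y) : PNullRel A X := by
  obtain ⟨d, F, hd, hF, hc⟩ := h
  exact ⟨d, F, ⟨hd.nonneg, hd.dens, hd.init, fun k L hL => hd.cov k L (hXY hL)⟩, hF, hc⟩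

theorem exists_numbering' : ∃ g : ℕ → SAlg × Polynomial ℕ, ∀ v n, ∃ m, n ≤ m ∧ g m = v := by
  have : Countable (Polynomial ℕ) := CC.poly_countable
  have : Countable SAlg := CC.salg_countable
  have : Nonempty SAlg := ⟨⟨fun x => x, polyTime_id, fun x => x, polyTime_id⟩⟩
  obtain ⟨h, hh⟩ := exists_surjective_nat (ℕ × (SAlg × Polynomial ℕ))
  refine ⟨fun m => (h m).2, fun v n => ?_⟩
  by_contra hcon
  push Not at hcon
  have h1 : Set.Infinite {m | (h m).2 = v} := by
    intro hfin
    have h2 : (Prod.fst '' (h '' {m | (h m).2 = v})).Finite := (hfin.image h).image _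
    have h3 : Prod.fst '' (h '' {m | (h m).2 = v}) = Set.univ := by
      ext i
      simp only [Set.mem_univ, iff_true]
      obtain ⟨m, hm⟩ := hh (i, v)
      exact ⟨(i, v), ⟨m, by simp [hm], hm⟩, rfl⟩
    rw [h3] at h2
    exact Set.infinite_univ h2
  obtain ⟨m, hm, hm'⟩ := h1.exists_gt n
  exact hcon m hm'.le hm

/-- the question number `e` for the length `n` -/
def truthS (g : ℕ → SAlg × Polynomial ℕ) (b : ℕ → Polynomial ℕ) (e n : ℕ) (A : Oracle) : Prop :=
  CC.Acc (g e).1 (CC.cut ((b e).eval n) A) (List.replicate n false)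

theorem pspace_lim {S : Set ℕ} (hS : S.Infinite) {V : List Bool → List Bool} (hV : PolyTime V)
    (hSV : ∀ n, n ∈ S ↔ V (List.replicate n false) = [true]) {g : ℕ → SAlg × Polynomial ℕ}
    (hg : ∀ v n, ∃ m, n ≤ m ∧ g m = v) {b : SAlg × Polynomial ℕ → Polynomial ℕ}
    (hb : ∀ v, ∀ x a : List Bool, a.length ≤ v.2.eval x.length →
      (v.1.act (pairBits x a)).length ≤ (b v).eval x.length) (B : Oracle) :
    PNullRel (lim S (truthS g (fun e => b (g e))) B)
      {L | IsPSPACE (lim S (truthS g (fun e => b (g e))) B) L} := by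
  set tr := truthS g (fun e => b (g e)) with htr
  set A := lim S tr B with hA
  obtain ⟨F, hF, hFm⟩ := mart_comp hV hSV A
  refine ⟨mart S A, F, ⟨?_, mart_dens S A, fun k => (mart_nil S A k).le, ?_⟩, hF, ?_⟩
  · intro k w
    unfold mart
    positivity
  · rintro k L ⟨M, p, hM⟩
    obtain ⟨n0, hn0⟩ := poly_lt_pow (b (M, p))
    obtain ⟨e, he, hge⟩ := hg (M, p) n0
    refine mart_cov hS A k e L fun n hn hr => ?_
    have hn1 : n0 ≤ n := by
      have := rk_le S n
      omega
    rw [lim_pl S tr B hn hr]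
    set x := List.replicate n false with hx
    have hxl : x.length = n := by rw [hx, List.length_replicate]
    have hcut : CC.cut ((b (g e)).eval n) (st S tr B n) = CC.cut ((b (g e)).eval n) A := by
      funext z
      unfold CC.cut
      split_ifs with hz
      · rw [hge] at hz
        exact (lim_eq S tr B (hz.trans_lt (hn0 n hn1))).symm
      · rfl
    have htr2 : tr e n (st S tr B n) ↔ CC.Acc M (CC.cut ((b (M, p)).eval x.length) A) x := by
      rw [hxl, ← hge, ← hcut, hge]
      change CC.Acc (g e).1 (CC.cut ((b (g e)).eval n) (st S tr B n)) x ↔ _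
      rw [hge]
    rw [htr2]
    obtain ⟨hM1, s, z, hs, hz, hL⟩ := hM x
    have hcong : ∀ s, M.Reach (CC.cut ((b (M, p)).eval x.length) A) x s ↔ M.Reach A x s := by
      refine CC.reach_congr (fun s => s.length ≤ p.eval x.length) hM1 ?_
      intro s q h1 h2
      have h3 := hb (M, p) x s h1
      rw [h2, List.length_cons] at h3
      unfold CC.cut
      rw [if_pos (by omega)]
    constructor
    · intro hxL
      refine ⟨s, (hcong s).2 hs, ?_⟩
      rw [hz, hL.1 hxL]
    · rintro ⟨t, ht, ht2⟩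
      have hst := CC.reach_unique hs ((hcong t).1 ht) ⟨_, hz⟩ ⟨_, ht2⟩
      rw [hst, ht2] at hz
      simp only [List.cons.injEq, true_and] at hz
      exact hL.2 hz.symm
  · intro k r w
    rw [hFm]
    simp

theorem not_null_pspace {S : Set ℕ} (hS : S.Infinite) {V : List Bool → List Bool}
    (hV : PolyTime V) (hSV : ∀ n, n ∈ S ↔ V (List.replicate n false) = [true]) (f : ℕ → ℝ)
    (C : ℝ) (hf : ∀ N, (cnt S N : ℝ) ^ 2 ≤ f N + C) :
    ¬ Null f {A : Oracle | PNullRel A {L | IsNP A L} ∧ PNullRel A {L | IsPSPACE A L}} := by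
  classical
  obtain ⟨g, hg⟩ := exists_numbering'
  choose b hb using fun v : SAlg × Polynomial ℕ => CC.act_length v.1 v.2
  refine not_null_of f Set.univ (by rw [measure_univ]; exact one_pos)
    (lim S (truthS g (fun e => b (g e)))) (plc S)
    (fun B y hy => lim_not S _ B hy) C (fun N => ?_) _
    (fun B _ => ?_)
  · refine le_trans ?_ (hf N)
    have h := card_plc S N
    have h2 : (((Finset.range N).filter (fun i => str i ∈ plc S)).card : ℝ) ≤
        ((cnt S N ^ 2 : ℕ) : ℝ) := by exact_mod_cast h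
    refine le_trans (le_of_eq ?_) (h2.trans (le_of_eq (by push_cast; ring)))
    congr 2
  · have h := pspace_lim hS hV hSV hg hb B
    exact ⟨h.mono fun L hL => IsNP.isPSPACE hL, h⟩

end Pool.Agent.Z45.PN
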