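import Pool.Agent.Z45.PN.Defs
import Pool.Agent.H620R2.GaugeR.R8

/-!
# Answers to sparse questions are written into few places of an oracle
-/

namespace Pool.Agent.Z45.PN

open Pool.Agent.NPC Pool.Agent.H620R2.Gauge

/-- the place for the answer to question number `e` about the length `n` -/
def pl (e n : ℕ) : List Bool := List.replicate (2 ^ n) false ++ List.replicate e true

theorem length_pl (e n : ℕ) : (pl e n).length = 2 ^ n + e := by simp [pl]

theorem count_pl (e n : ℕ) : (pl e n).count true = e := by
  simp [pl, List.count_append, List.count_replicate]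

theorem pl_inj {e n e' n' : ℕ} (h : pl e n = pl e' n') : e = e' ∧ n = n' := by
  have h1 := congrArg (List.count true) h
  rw [count_pl, count_pl] at h1
  have h2 := congrArg List.length h
  rw [length_pl, length_pl, h1] at h2
  exact ⟨h1, Nat.pow_right_injective le_rfl (by simpa using h2)⟩

open Classical in
/-- the number of elements of `S` below `n` -/
noncomputable def rk (S : Set ℕ) (n : ℕ) : ℕ := ((Finset.range n).filter (fun m => m ∈ S)).card

open Classical in
theorem rk_le (S : Set ℕ) (n : ℕ) : rk S n ≤ n := by
  have := Finset.card_filter_le (Finset.range n) (fun m => m ∈ S)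
  rwa [Finset.card_range] at this

open Classical in
theorem rk_succ (S : Set ℕ) (n : ℕ) : rk S (n + 1) = rk S n + if n ∈ S then 1 else 0 := by
  unfold rk
  rw [Finset.range_add_one, Finset.filter_insert]
  split_ifs with h
  · rw [Finset.card_insert_of_notMem (by simp)]
  · simp

variable (S : Set ℕ) (tr : ℕ → ℕ → Oracle → Prop)

open Classical in
/-- the oracle after the stages below `n` -/
noncomputable def st (B : Oracle) : ℕ → Oracle
  | 0 => B
  | n + 1 => fun y =>
    if n ∈ S ∧ y.count true < rk S n ∧ y = pl (y.count true) n then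
      decide (tr (y.count true) n (st B n)) else st B n y

theorem st_stable (B : Oracle) (y : List Bool) {m m' : ℕ} (h : m' ≤ m) (hy : y.length < 2 ^ m') :
    st S tr B m y = st S tr B m' y := by
  induction m, h using Nat.le_induction with
  | base => rfl
  | succ m hm ih =>
    rw [← ih, st]
    beta_reduce
    rw [if_neg]
    rintro ⟨_, _, h3⟩
    have h4 := congrArg List.length h3
    rw [length_pl] at h4
    have h5 : 2 ^ m' ≤ 2 ^ m := Nat.pow_le_pow_right (by norm_num) hm
    omega

/-- the oracle after all stages -/
noncomputable def lim (B : Oracle) : Oracle := fun y => st S tr B (y.length + 1) y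

theorem lim_eq (B : Oracle) {y : List Bool} {n : ℕ} (hy : y.length < 2 ^ n) :
    lim S tr B y = st S tr B n y := by
  have h1 : y.length < 2 ^ (y.length + 1) :=
    Nat.lt_two_pow_self.trans (Nat.pow_lt_pow_right (by norm_num) (Nat.lt_succ_self _))
  rcases le_total n (y.length + 1) with h | h
  · exact st_stable S tr B y h hy
  · exact (st_stable S tr B y h h1).symm

open Classical in
theorem lim_pl (B : Oracle) {e n : ℕ} (hn : n ∈ S) (he : e < rk S n) :
    lim S tr B (pl e n) = true ↔ tr e n (st S tr B n) := by
  have h1 : (pl e n).length < 2 ^ (n + 1) := by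
    rw [length_pl, pow_succ]
    have := rk_le S n
    have h2 : n < 2 ^ n := Nat.lt_two_pow_self
    omega
  rw [lim_eq S tr B h1, st]
  beta_reduce
  rw [if_pos (by rw [count_pl]; exact ⟨hn, he, rfl⟩), count_pl]
  exact decide_eq_true_iff

/-- the places -/
def plc : Set (List Bool) := {y | ∃ e n, n ∈ S ∧ e < rk S n ∧ y = pl e n}

theorem lim_not (B : Oracle) {y : List Bool} (hy : y ∉ plc S) : lim S tr B y = B y := by
  have h : ∀ m, st S tr B m y = B y := by
    intro m
    induction m with
    | zero => rfl
    | succ m ih =>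
      rw [st]
      beta_reduce
      rw [if_neg, ih]
      rintro ⟨h1, h2, h3⟩
      exact hy ⟨_, _, h1, h2, h3⟩
  exact h _

/-- the number of stages up to `N` -/
noncomputable def cnt (S : Set ℕ) (N : ℕ) : ℕ := Nat.card {n : ℕ // n ∈ S ∧ 2 ^ n ≤ Nat.log 2 N}

open Classical in
theorem cnt_eq (S : Set ℕ) (N : ℕ) : cnt S N =
    ((Finset.range (Nat.log 2 N + 1)).filter (fun n => n ∈ S ∧ 2 ^ n ≤ Nat.log 2 N)).card := by
  unfold cnt
  refine Nat.subtype_card _ fun n => ?_
  rw [Finset.mem_filter, Finset.mem_range]
  constructor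
  · exact fun h => h.2
  · intro h
    have h1 : n < 2 ^ n := Nat.lt_two_pow_self
    exact ⟨by omega, h⟩

open Classical in
theorem card_plc (S : Set ℕ) (N : ℕ) :
    ((Finset.range N).filter (fun i => str i ∈ plc S)).card ≤ cnt S N ^ 2 := by
  set W := (Finset.range (Nat.log 2 N + 1)).filter (fun n => n ∈ S ∧ 2 ^ n ≤ Nat.log 2 N) with hW
  have h1 : (Finset.range N).filter (fun i => str i ∈ plc S) ⊆
      ((Finset.range (cnt S N)) ×ˢ W).image (fun q => idx (pl q.1 q.2)) := by
    intro i hi
    rw [Finset.mem_filter, Finset.mem_range] at hi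
    obtain ⟨hiN, e, n, hn, he, hs⟩ := hi
    have h2 := congrArg List.length hs
    rw [length_str, length_pl] at h2
    have h3 : Nat.log 2 (i + 1) ≤ Nat.log 2 N := Nat.log_mono_right (by omega)
    have h4 : 2 ^ n ≤ Nat.log 2 N := by omega
    have h5 : rk S n ≤ cnt S N := by
      rw [cnt_eq]
      unfold rk
      apply Finset.card_le_card
      intro m hm
      rw [Finset.mem_filter, Finset.mem_range] at hm
      rw [Finset.mem_filter, Finset.mem_range]
      have h6 : 2 ^ m ≤ 2 ^ n := Nat.pow_le_pow_right (by norm_num) hm.1.le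
      have h7 : m < 2 ^ m := Nat.lt_two_pow_self
      exact ⟨by omega, hm.2, by omega⟩
    rw [Finset.mem_image]
    refine ⟨(e, n), ?_, ?_⟩
    · rw [Finset.mem_product, Finset.mem_range, hW, Finset.mem_filter, Finset.mem_range]
      have h7 : n < 2 ^ n := Nat.lt_two_pow_self
      exact ⟨by simp only; omega, by simp only; omega, hn, h4⟩
    · simp only
      rw [← hs, idx_str]
  refine (Finset.card_le_card h1).trans (Finset.card_image_le.trans ?_)
  rw [Finset.card_product, Finset.card_range, hW, ← cnt_eq, pow_two]

end Pool.Agent.Z45.PN
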