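import Pool.Agent.Z45.PN.Sim

/-!
# A null cover from few useless oracles
-/

namespace Pool.Agent.Z45.PN

open Pool.Agent.NPC Pool.Agent.H620R2.Gauge MeasureTheory Pool.Agent.Z45.OG Pool.Agent.Z45.UO

section Poly

variable {α : Type} [TEnc α]

theorem poly_two_pow {n : α → ℕ} (hn : UPoly n) : Poly (fun a => 2 ^ n a) :=
  (Poly.valBits (Poly.append (poly_repl false hn) (NPC.Poly.const [true]))).congr
    fun _ => valB_pow _

theorem poly_rnd {r : α → ℕ} {y : α → List Bool} (hr : UPoly r) (hy : Poly y) :
    Poly (fun a => rnd (r a) (y a)) :=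
  Poly.div (Poly.mul (Poly.valBits (Poly.fst (poly_unpair.comp hy))) (poly_two_pow hr))
    (poly_two_pow (UPoly.length (Poly.snd (poly_unpair.comp hy))))

theorem poly_rndO {r : α → ℕ} {o : α → Option (List Bool)} (hr : UPoly r) (ho : Poly o) :
    Poly (fun a => rndO (r a) (o a)) :=
  (Poly.optCases (g := fun _ => 0) (h := fun a y => rnd (r a) y) ho (NPC.Poly.const 0)
    (poly_rnd (hr.comp (Poly.fst Poly.id)) (Poly.snd Poly.id))).congr fun a => by
      cases o a <;> rfl

theorem poly_inq {k : α → ℕ} {v : α → List Bool} (hk : UPoly k) (hv : Poly v) :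
    Poly (fun a => inq (k a) (v a)) :=
  H622R2.poly_pairBits (poly_repl true hk) (H622R2.poly_pairBits
    (poly_repl true ((hk.add (UPoly.length hv)).add (UPoly.const 1))) hv)

theorem poly_valS (M : Alg) {k : α → ℕ} {σ : α → Tab} {v : α → List Bool} (hk : UPoly k)
    (hσ : Poly σ) (hv : Poly v) : Poly (fun a => valS M (k a) (σ a) (v a)) :=
  poly_rndO ((hk.add (UPoly.length hv)).add (UPoly.const 1))
    (poly_lz M (x := fun a => inq (k a) (v a)) (τ := σ) (r := fun _ => []) (poly_inq hk hv) hσ
      (NPC.Poly.const _))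

theorem poly_upd {t a u v : α → ℕ} (ht : UPoly t) (ha : Poly a) (hu : Poly u) (hv : Poly v) :
    Poly (fun x => upd (t x) (a x) (u x) (v x)) := by
  have h2 : Poly (fun x => 2 * a x) := Poly.mul (NPC.Poly.const 2) ha
  refine Poly.ite (Poly.decide_or (Poly.decide_le (poly_two_pow ht) ha)
    (Poly.decide_or (Poly.decide_lt (Poly.add h2 hu) hv) (Poly.decide_lt (Poly.add h2 hv) hu)))
    h2 (Poly.sub (Poly.add h2 hu) hv)

theorem poly_leg (M : Alg) {k : α → ℕ} {σ : α → Tab} {w : α → List Bool} (hk : UPoly k)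
    (hσ : Poly σ) (hw : Poly w) : Poly (fun a => leg (k a) (valS M (k a) (σ a)) (w a)) := by
  have hF : Poly (fun p : α × (List Bool × ℕ) × Bool =>
      stp (k p.1) (valS M (k p.1) (σ p.1)) p.2.1 p.2.2) := by
    have g0 : Poly (fun p : α × (List Bool × ℕ) × Bool => p.1) := Poly.fst Poly.id
    have g1 : Poly (fun p : α × (List Bool × ℕ) × Bool => p.2.1.1) :=
      Poly.fst (Poly.fst (Poly.snd Poly.id))
    have g2 : Poly (fun p : α × (List Bool × ℕ) × Bool => p.2.1.2) :=
      Poly.snd (Poly.fst (Poly.snd Poly.id))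
    have g3 : Poly (fun p : α × (List Bool × ℕ) × Bool => p.2.2) := Poly.snd (Poly.snd Poly.id)
    have gk : UPoly (fun p : α × (List Bool × ℕ) × Bool => k p.1) := hk.comp g0
    have gs : Poly (fun p : α × (List Bool × ℕ) × Bool => σ p.1) := hσ.comp g0
    have g4 := Poly.append g1 (Poly.cons g3 (NPC.Poly.const []))
    have g5 := Poly.append g1 (Poly.cons (Poly.not g3) (NPC.Poly.const []))
    exact Poly.pair g4 (poly_upd ((gk.add (UPoly.length g1)).add (UPoly.const 2)) g2
      (poly_valS M gk gs g4) (poly_valS M gk gs g5))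
  obtain ⟨qk, hqk⟩ := (show Poly (fun a => List.replicate (k a) ()) from hk).sz_le
  obtain ⟨qw, hqw⟩ := hw.sz_le
  refine Poly.snd (Poly.foldl (F := fun a s b => stp (k a) (valS M (k a) (σ a)) s b)
    (s := fun _ => (([] : List Bool), 8)) hw (NPC.Poly.const _) hF
    (Polynomial.C 8 * qw + Polynomial.C 4 * qk + Polynomial.C 19) ?_)
  intro a j _
  set val := valS M (k a) (σ a)
  set u := (w a).take j with hu
  have h1 : (u.foldl (stp (k a) val) ([], 8)).1 = u := by rw [fold_fst]; rfl
  have h2 : (u.foldl (stp (k a) val) ([], 8)).2 = leg (k a) val u := rfl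
  have h3 : u.foldl (fun s b => stp (k a) val s b) ([], 8) = (u, leg (k a) val u) :=
    Prod.ext h1 h2
  rw [h3, sz_pair]
  have h4 := sz_listBool_le u
  have h5 := sz_nat_le (leg (k a) val u)
  have h6 : (leg (k a) val u).size ≤ k a + u.length + 4 := by
    rw [Nat.size_le]
    refine (leg_bound (k a) val u).trans_lt ?_
    exact Nat.pow_lt_pow_right (by norm_num) (by omega)
  have h7 : u.length ≤ (w a).length := by rw [hu]; exact List.length_take_le' _ _
  have h8 := length_lt_sz (w a)
  have h9 := hqw a
  have h10 := length_lt_sz (List.replicate (k a) ())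
  have h11 := hqk a
  rw [List.length_replicate] at h10
  simp only [Polynomial.eval_add, Polynomial.eval_mul, Polynomial.eval_C]
  omega

theorem poly_mis (c : ℕ) (K : List (List Bool)) {B : α → ℕ} (hB : UPoly B) :
    Poly (fun a => mis c K (B a)) :=
  Poly.filter (p := fun _ y => !decide (y ∈ K)) (poly_FL c hB)
    ((Poly.not (Poly.decide_mem (f := fun p : α × List Bool => p.2) (l := fun _ => K)
      (Poly.snd Poly.id) (NPC.Poly.const _))).congr fun p => by congr)

theorem upoly_dep (s : Polynomial ℕ) {k n : α → ℕ} (hk : UPoly k) (hn : UPoly n) :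
    UPoly (fun a => dep s (k a) (n a)) :=
  UPoly.eval (((UPoly.const 4).mul hk).add ((UPoly.const 3).mul hn) |>.add (UPoly.const 4)) s

theorem poly_tot (M : Alg) (s : Polynomial ℕ) (c : ℕ) (τ : Tab) {k : α → ℕ}
    {w : α → List Bool} (hk : UPoly k) (hw : Poly w) : Poly (fun a => tot M s c τ (k a) (w a)) :=
  Poly.sum (NPC.Poly.map (F := fun a σ => leg (k a) (valS M (k a) σ) (w a))
    (poly_ext c τ (τ.map Prod.fst) (upoly_dep s hk (UPoly.length hw)))
    (poly_leg M (hk.comp (Poly.fst Poly.id)) (Poly.snd Poly.id) (hw.comp (Poly.fst Poly.id))))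

end Poly

/-- the code of the value of the new density function -/
def outF (M : Alg) (s : Polynomial ℕ) (c : ℕ) (τ : Tab) (k : ℕ) (w : List Bool) : List Bool :=
  pairBits (tot M s c τ (k + 2) w).bits (List.replicate
    ((mis c (τ.map Prod.fst) (dep s (k + 2) w.length)).length + (k + w.length + 3)) true)

theorem poly_outF (M : Alg) (s : Polynomial ℕ) (c : ℕ) (τ : Tab) :
    Poly (fun z : List Bool => outF M s c τ (unpair z).1.length (unpair (unpair z).2).2) := by
  have h1 : UPoly (fun z : List Bool => (unpair z).1.length) := UPoly.length (Poly.fst poly_unpair)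
  have h2 : Poly (fun z : List Bool => (unpair (unpair z).2).2) :=
    Poly.snd (poly_unpair.comp (Poly.snd poly_unpair))
  have h3 := h1.add (UPoly.const 2)
  exact H622R2.poly_pairBits (Poly.natBits (poly_tot M s c τ h3 h2))
    (poly_repl true ((UPoly.length (poly_mis c (τ.map Prod.fst)
      (upoly_dep s h3 (UPoly.length h2)))).add
        ((h1.add (UPoly.length h2)).add (UPoly.const 3))))

theorem pref_succ (L : Set (List Bool)) (n : ℕ) : ∃ b, pref L (n + 1) = pref L n ++ [b] := by
  classical
  refine ⟨decide (str n ∈ L), ?_⟩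
  unfold pref
  rw [List.ofFn_succ_last]
  simp only [Fin.val_castSucc, Fin.val_last]

/-- The oracles for which the algorithm computes a null cover of the class. -/
def GoodO (X : Set (Set (List Bool))) (M : Alg) (c : ℕ) : Set Oracle :=
  {B | ∃ (d : ℕ → List Bool → ℝ) (F : List Bool → List Bool), IsCover X d ∧
    (∀ x, M.out (cut c B) x = some (F x)) ∧
      ∀ k r w, |dyad (F (inp k r w)) - d k w| ≤ (1 / 2) ^ r}

theorem reach_one {X : Set (Set (List Bool))} {M : Alg} {c : ℕ} {B : Oracle}
    (hB : B ∈ GoodO X M c) (k : ℕ) {L : Set (List Bool)} (hL : L ∈ X) :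
    ∃ n, 1 ≤ capO M c k (pref L n) B := by
  obtain ⟨d, F, hd, hF, happ⟩ := hB
  obtain ⟨n, hn⟩ := hd.cov k L hL
  refine ⟨n, ?_⟩
  have h := cap_good (k := k) (val := valO M c k B) (d := d k) (hd.nonneg k) (hd.dens k)
    (hd.init k) (fun v => ?_) (pref L n)
  · rcases h with h | h
    · exact h
    · unfold capO
      have : (0 : ℝ) < (1 / 2) ^ (k + (pref L n).length) := by positivity
      linarith
  · set r := k + v.length + 1 with hr
    have e : valO M c k B v = rnd r (F (inp k r v)) := by
      unfold valO inq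
      rw [hF]
      rfl
    rw [e]
    have h1 := rnd_spec r (F (inp k r v))
    have h2 := happ k r v
    calc |(rnd r (F (inp k r v)) : ℝ) / 2 ^ r - d k v|
        ≤ |(rnd r (F (inp k r v)) : ℝ) / 2 ^ r - dyad (F (inp k r v))| +
          |dyad (F (inp k r v)) - d k v| := abs_sub_le _ _ _
      _ ≤ _ := by linarith

theorem pnull_of_pos {X : Set (Set (List Bool))} (M : Alg) (c : ℕ)
    (h : 0 < ranO.real (GoodO X M c)) : PNull X := by
  obtain ⟨τ, hτF, hτ, hpos, hmax⟩ := exists_max h (fun τ => ∀ e ∈ τ, e.1 ∈ Free c)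
    (fun e he => by simp at he)
  obtain ⟨s, hs⟩ : ∃ s, Short M s := M.out_local
  have hint : ∀ k w, Integrable (capO M c k w) ranO := fun k w => (loc_cap hs c k w).integrable
  refine ⟨fun k w => 2 * mean (capO M c (k + 2) w) τ,
    fun z => outF M s c τ (unpair z).1.length (unpair (unpair z).2).2,
    ⟨?_, ?_, ?_, ?_⟩, H622R2.polyTime_of_poly_list (poly_outF M s c τ), ?_⟩
  · intro k w
    exact mul_nonneg (by norm_num) (mean_nonneg (fun B => cap_nonneg _ _ _) τ)
  · intro k w
    have h1 := mean_add (hint (k + 2) (w ++ [false])) (hint (k + 2) (w ++ [true])) τ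
    have h2 : (fun B => capO M c (k + 2) (w ++ [false]) B + capO M c (k + 2) (w ++ [true]) B) =
        fun B => 2 * capO M c (k + 2) w B := by
      funext B
      exact cap_sum _ _ _
    rw [h2, mean_const_mul] at h1
    linarith
  · intro k
    have h1 : mean (capO M c (k + 2) []) τ = (1 / 2) * (1 / 2) ^ k :=
      mean_eq_of_const hτ fun B _ => cap_nil k _
    rw [h1]
    linarith
  · intro k L hL
    set W : ℕ → Set Oracle := fun n => {B | 1 ≤ capO M c (k + 2) (pref L n) B} with hW
    have hmono : Monotone W := by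
      refine monotone_nat_of_le_succ fun n B hB => ?_
      obtain ⟨b, hb⟩ := pref_succ L n
      rw [hW]
      simp only [Set.mem_ofPred_eq]
      rw [hb]
      exact cap_stay _ _ _ _ hB
    have hsub : GoodO X M c ∩ tabSet τ ⊆ ⋃ n, W n := by
      rintro B ⟨hB, _⟩
      obtain ⟨n, hn⟩ := reach_one hB (k + 2) hL
      exact Set.mem_iUnion.2 ⟨n, hn⟩
    obtain ⟨n, hn⟩ := exists_gain hpos hmono hsub
    refine ⟨n, ?_⟩
    have h1 := mean_ge (G := GoodO X M c) (P := fun τ => ∀ e ∈ τ, e.1 ∈ Free c)
      (Q := mis c (τ.map Prod.fst) (dep s (k + 2) (pref L n).length))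
      (hint (k + 2) (pref L n)) (fun B => cap_nonneg _ _ _) hpos hmax
      (fun σ hσ => mis_ext hτF hτ hσ)
      (fun σ => cap (k + 2) (valS M (k + 2) σ) (pref L n))
      (fun σ hσ B hB => by
        unfold capO cap
        congr 2
        exact leg_congr fun v hv => (valS_eq hs hτF hτ hσ hB hv).symm) hn
    linarith
  · intro k r w
    have h1 : unpair (inp k r w) = (List.replicate k true, pairBits (List.replicate r true) w) :=
      unpair_pairBits _ _
    have h2 : unpair (pairBits (List.replicate r true) w) = (List.replicate r true, w) :=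
      unpair_pairBits _ _
    simp only [h1, h2, List.length_replicate]
    rw [mean_capO hs hτF hτ]
    have h3 : dyad (outF M s c τ k w) = (tot M s c τ (k + 2) w : ℝ) /
        2 ^ ((mis c (τ.map Prod.fst) (dep s (k + 2) w.length)).length + (k + w.length + 3)) := by
      unfold dyad outF
      rw [unpair_pairBits]
      simp only [valB_bits, List.length_replicate]
    rw [h3, show (mis c (τ.map Prod.fst) (dep s (k + 2) w.length)).length +
      (k + 2 + w.length + 2) = ((mis c (τ.map Prod.fst) (dep s (k + 2) w.length)).length +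
        (k + w.length + 3)) + 1 by ring, pow_succ, ← div_div, mul_div_cancel₀ _ (two_ne_zero' ℝ),
      sub_self, abs_zero]
    positivity

theorem pnull_of_null {X : Set (Set (List Bool))} {c : ℝ}
    (h : Null (fun N => N - c * Real.logb 2 (Real.logb 2 N)) {A : Oracle | ¬ PNullRel A X}) :
    PNull X := by
  obtain ⟨c', hc'⟩ := exists_nat_ge c
  have h1 := cut_null hc' h
  obtain ⟨M, hM⟩ : ∃ M : Alg, 0 < ranO.real (GoodO X M c') := by
    by_contra hcon
    push Not at hcon
    have h2 : ∀ M : Alg, ranO (GoodO X M c') = 0 := by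
      intro M
      have h3 := le_antisymm (hcon M) measureReal_nonneg
      rwa [measureReal_def, ENNReal.toReal_eq_zero_iff, or_iff_left (measure_ne_top _ _)] at h3
    have h4 : ranO (Set.univ : Set Oracle) ≤ 0 := by
      calc ranO (Set.univ : Set Oracle)
          ≤ ranO ({B | cut c' B ∈ {A : Oracle | ¬ PNullRel A X}} ∪
            ⋃ M : Alg, GoodO X M c') := by
            refine measure_mono fun B _ => ?_
            by_cases hB : PNullRel (cut c' B) X
            · right
              obtain ⟨d, F, hd, ⟨M, hM⟩, happ⟩ := hB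
              exact Set.mem_iUnion.2 ⟨M, d, F, hd, hM, happ⟩
            · left
              exact hB
        _ ≤ ranO {B | cut c' B ∈ {A : Oracle | ¬ PNullRel A X}} +
            ranO (⋃ M : Alg, GoodO X M c') := measure_union_le _ _
        _ = 0 := by rw [h1, measure_iUnion_null h2, add_zero]
    rw [measure_univ] at h4
    exact absurd h4 (by norm_num)
  exact pnull_of_pos M c' hM

theorem PNull.rel {X : Set (Set (List Bool))} (h : PNull X) (A : Oracle) : PNullRel A X := by
  obtain ⟨d, F, hd, hF, happ⟩ := h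
  exact ⟨d, F, hd, IsFP.of_poly (H622R2.poly_of_polyTime hF), happ⟩

end Pool.Agent.Z45.PN
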